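import Pool.Agent.ShghX.MainX
import Pool.Agent.ShghT.Final

/-!
# Theorem X for any nine of the points
-/

namespace ShghT

open MvPolynomial

/-- The condition, with `E = -K_9 · D`. -/
def HypZ (E χ : ℤ) (n : ℕ) : Prop :=
  E ≤ 2 ∨ 2 * E ^ 2 ≤ |χ| ∨ 2 * E ^ 3 ≤ n ∨ (E = 3 ∧ (χ ≠ 0 ∨ n ≠ 1))

/-- The number of points outside of the nine with positive multiplicity. -/
def numX {s : ℕ} (c : Fin 9 → Fin s) (μ : Fin s → ℕ) : ℕ :=
  (Finset.univ.filter fun i => (∀ l, i ≠ c l) ∧ 1 ≤ μ i).card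

theorem numX_enum {s r : ℕ} (c : Fin 9 → Fin s) (μ : Fin s → ℕ) (σ : Fin (9 + r) ≃ Fin s)
    (hσ : ∀ l, σ (Fin.castAdd r l) = c l) :
    (Finset.univ.filter fun i : Fin r => 1 ≤ μ (σ (Fin.natAdd 9 i))).card = numX c μ := by
  rw [numX]
  refine Finset.card_bij (fun i _ => σ (Fin.natAdd 9 i)) ?_ ?_ ?_
  · intro i hi
    rw [Finset.mem_filter] at hi ⊢
    refine ⟨Finset.mem_univ _, ?_, hi.2⟩
    intro l hl
    rw [← hσ l] at hl
    have := σ.injective hl
    have h1 := congrArg Fin.val this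
    simp only [Fin.val_castAdd, Fin.val_natAdd] at h1
    omega
  · intro i _ j _ hij
    have h1 := congrArg Fin.val (σ.injective hij)
    simp only [Fin.val_natAdd] at h1
    exact Fin.ext (by omega)
  · intro j hj
    rw [Finset.mem_filter] at hj
    obtain ⟨i, rfl⟩ := σ.surjective j
    induction i using Fin.addCases with
    | left i => exact absurd (hσ i) (hj.2.1 i)
    | right i =>
      refine ⟨i, ?_, rfl⟩
      rw [Finset.mem_filter]
      exact ⟨Finset.mem_univ _, hj.2.2⟩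

variable {F K : Type*} [Field F] [Field K] [Algebra F K] {s : ℕ} (P : Fin s → Fin 2 → K)
    (hP : AlgebraicIndependent F (fun ij : Fin s × Fin 2 => P ij.1 ij.2))
    (δ : ℕ) (μ : Fin s → ℕ) (c : Fin 9 → Fin s) (hc : Function.Injective c)

include hP hc

private theorem std_X_aux (hanti : Antitone fun l => μ (c l))
    (hstd : ∀ i j l, i ≠ j → i ≠ l → j ≠ l → μ (c i) + μ (c j) + μ (c l) ≤ δ)
    (h : HypZ (3 * δ - ∑ l, (μ (c l) : ℤ))
      (((δ + 2).choose 2 : ℤ) - ∑ i, ((μ i + 1).choose 2 : ℤ)) (numX c μ)) :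
    (Module.finrank K (LS δ μ P) : ℤ) =
      max 0 (((δ + 2).choose 2 : ℤ) - ∑ i, ((μ i + 1).choose 2 : ℤ)) := by
  have h012 := hstd 0 1 2 (by decide) (by decide) (by decide)
  have h345 := hstd 3 4 5 (by decide) (by decide) (by decide)
  have h678 := hstd 6 7 8 (by decide) (by decide) (by decide)
  have hsum : ∑ l, μ (c l) = μ (c 0) + μ (c 1) + μ (c 2) + μ (c 3) + μ (c 4) + μ (c 5) +
      μ (c 6) + μ (c 7) + μ (c 8) := by
    rw [Fin.sum_univ_succ, Fin.sum_univ_eight]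
    have e1 : (Fin.succ 0 : Fin 9) = 1 := rfl
    have e2 : (Fin.succ 1 : Fin 9) = 2 := rfl
    have e3 : (Fin.succ 2 : Fin 9) = 3 := rfl
    have e4 : (Fin.succ 3 : Fin 9) = 4 := rfl
    have e5 : (Fin.succ 4 : Fin 9) = 5 := rfl
    have e6 : (Fin.succ 5 : Fin 9) = 6 := rfl
    have e7 : (Fin.succ 6 : Fin 9) = 7 := rfl
    have e8 : (Fin.succ 7 : Fin 9) = 8 := rfl
    rw [e1, e2, e3, e4, e5, e6, e7, e8]
    ring
  obtain ⟨e, he⟩ : ∃ e, 3 * δ = e + ∑ l, μ (c l) := ⟨3 * δ - ∑ l, μ (c l), by omega⟩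
  have heZ : (3 * (δ : ℤ) - ∑ l, (μ (c l) : ℤ)) = e := by
    have : ((3 * δ : ℕ) : ℤ) = ((e + ∑ l, μ (c l) : ℕ) : ℤ) := by rw [he]
    push_cast at this
    linarith
  rw [heZ] at h
  refine reindex P hP δ μ c hc (fun {r} _ m =>
    (Finset.univ.filter fun i : Fin r => 1 ≤ m i).card = numX c μ) ?_ _ rfl ?_
  · intro r σ hσ
    exact numX_enum c μ σ hσ
  · rintro r P' hP' M m hm hM hχ
    have hM' : M = fun l => μ (c l) := funext hM
    refine main_X P' hP' δ M m e ⟨?_, ?_, ?_⟩ ?_ _ ?_ hχ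
    · rw [hM']
      exact hanti
    · rw [hM, hM, hM]
      exact h012
    · rw [he]
      simp only [hM]
    · intro i j l h1 h2 h3
      rw [hM, hM, hM]
      exact hstd i j l h1 h2 h3
    · rw [hm]
      rcases h with h | h | h | ⟨h, h'⟩
      · exact Or.inl (by exact_mod_cast h)
      · exact Or.inr (Or.inl h)
      · exact Or.inr (Or.inr (Or.inl (by exact_mod_cast h)))
      · exact Or.inr (Or.inr (Or.inr ⟨by exact_mod_cast h, h'⟩))

/-- Standard classes. -/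
theorem std_X
    (hstd : ∀ i j l, i ≠ j → i ≠ l → j ≠ l → μ (c i) + μ (c j) + μ (c l) ≤ δ)
    (h : HypZ (3 * δ - ∑ l, (μ (c l) : ℤ))
      (((δ + 2).choose 2 : ℤ) - ∑ i, ((μ i + 1).choose 2 : ℤ)) (numX c μ)) :
    (Module.finrank K (LS δ μ P) : ℤ) =
      max 0 (((δ + 2).choose 2 : ℤ) - ∑ i, ((μ i + 1).choose 2 : ℤ)) := by
  let σ : Equiv.Perm (Fin 9) := Fin.revPerm.trans (Tuple.sort fun l => μ (c l))
  have hr : numX (fun l => c (σ l)) μ = numX c μ := by
    rw [numX, numX]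
    congr 1
    refine Finset.filter_congr fun i _ => and_congr_left fun _ => ?_
    exact ⟨fun h l => by simpa using h (σ.symm l), fun h l => h (σ l)⟩
  refine std_X_aux P hP δ μ (fun l => c (σ l)) (hc.comp σ.injective) ?_ ?_ ?_
  · intro i j hij
    exact Tuple.monotone_sort (fun l => μ (c l)) (Fin.rev_le_rev.2 hij)
  · intro i j l h1 h2 h3
    exact hstd _ _ _ (σ.injective.ne h1) (σ.injective.ne h2) (σ.injective.ne h3)
  · rw [hr, Equiv.sum_comp σ fun l => (μ (c l) : ℤ)]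
    exact h

end ShghT
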