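import Pool.Agent.ShghX.FinalX

/-!
# The bound `h¹ ≤ 2 e²`
-/

namespace ShghT

open MvPolynomial

/-- The bound for sorted or unsorted nine multiplicities, `e ≥ 1`. -/
theorem main_B {F K : Type*} [Field F] [Field K] [Algebra F K] {r : ℕ}
    (P : Fin (9 + r) → Fin 2 → K)
    (hP : AlgebraicIndependent F (fun ij : Fin (9 + r) × Fin 2 => P ij.1 ij.2))
    (δ : ℕ) (M : Fin 9 → ℕ) (m : Fin r → ℕ)
    (hstd : ∀ i j l, i ≠ j → i ≠ l → j ≠ l → M i + M j + M l ≤ δ)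
    (e : ℕ) (he : 0 < e) (hδ : 3 * δ = e + ∑ l, M l) (χ : ℤ)
    (hχ : χ = ((δ + 2).choose 2 : ℤ) - ∑ l, ((M l + 1).choose 2 : ℤ) -
      ∑ i, ((m i + 1).choose 2 : ℤ)) (hbig : -(2 * (e : ℤ) ^ 2) ≤ χ) :
    (Module.finrank K (LS δ (Fin.append M m) P) : ℤ) ≤ χ + 2 * (e : ℤ) ^ 2 := by
  classical
  have : Infinite K := infinite_of_algebraicIndependent _ hP
  obtain ⟨l0, hl0⟩ := Finite.exists_min M
  set y := M l0 with hy
  obtain ⟨h3y, c, hc1, hc2, hc3, hc4⟩ := arith δ M hstd y hl0 l0 rfl e hδ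
  have hcnd : (cnd m : ℤ) = ∑ i, ((m i + 1).choose 2 : ℤ) := by
    rw [cnd]
    push_cast
    rfl
  have hS : ((∑ l, (M l + 1).choose 2 : ℕ) : ℤ) = ∑ l, ((M l + 1).choose 2 : ℤ) := by
    push_cast
    rfl
  have hc2' : ((δ + 2).choose 2 : ℤ) = e * y + c + ∑ l, ((M l + 1).choose 2 : ℤ) := by
    rw [← hS]
    exact_mod_cast hc2
  have hχ' : χ = e * y + c - cnd m := by
    rw [hχ, hc2', hcnd]
    ring
  obtain ⟨n, hn⟩ : ∃ n : ℕ, (n : ℤ) = χ + 2 * (e : ℤ) ^ 2 :=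
    ⟨(χ + 2 * (e : ℤ) ^ 2).toNat, Int.toNat_of_nonneg (by linarith)⟩
  obtain ⟨J, hJ1, hJ2, hJ3⟩ := arith_J δ M y hl0 l0 rfl e hδ
  have hc4' : (e : ℤ) + 2 ≤ 2 * c := by exact_mod_cast hc4
  have hJ1' : (J : ℤ) ≤ y + e := by exact_mod_cast hJ1
  have he1 : (1 : ℤ) ≤ e := by exact_mod_cast he
  have hS4 : 4 * (e * (J + 1)) + 3 * e ^ 2 ≤
      4 * cnd (Fin.append m (fun _ : Fin n => 1)) := by
    rw [cnd_append]
    have : 4 * ((e : ℤ) * (J + 1)) + 3 * e ^ 2 ≤ 4 * (cnd m + n) := by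
      rw [hn, hχ']
      nlinarith [mul_le_mul_of_nonneg_left hJ1' (by linarith : (0 : ℤ) ≤ e), sq_nonneg ((e : ℤ) - 1)]
    exact_mod_cast this
  obtain ⟨p, s, hps, hN⟩ := comb_lo e he _ _ hS4
  have h := upper_gen P hP δ M m e he hδ n (J + 1) 0 p s hps hN (fun j hj => hJ2 j (by omega))
    (by
    intro a ha α β δ' hα hβ hδ' hrel
    refine ⟨∅, le_rfl, fun f hf hf0 _ hdvd => ?_⟩
    obtain ⟨o, ho1, ho2, ho3⟩ := exists_ord (N := 4 * e) (by omega) hα hβ hδ' hrel a ha δ M f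
      hf hf0 (J + 1) hdvd
    exact hJ3 o (by omega) ho2 ho3)
  have h' : ((Module.finrank K (LS δ (Fin.append M m) P) : ℕ) : ℤ) ≤ n := by
    exact_mod_cast h
  rw [hn] at h'
  exact h'

variable {F K : Type*} [Field F] [Field K] [Algebra F K] {s : ℕ} (P : Fin s → Fin 2 → K)
    (hP : AlgebraicIndependent F (fun ij : Fin s × Fin 2 => P ij.1 ij.2))
    (δ : ℕ) (μ : Fin s → ℕ) (c : Fin 9 → Fin s) (hc : Function.Injective c)

include hP hc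

/-- Standard classes. -/
theorem std_B
    (hstd : ∀ i j l, i ≠ j → i ≠ l → j ≠ l → μ (c i) + μ (c j) + μ (c l) ≤ δ)
    (h : -(2 * (3 * (δ : ℤ) - ∑ l, (μ (c l) : ℤ)) ^ 2) ≤
      ((δ + 2).choose 2 : ℤ) - ∑ i, ((μ i + 1).choose 2 : ℤ)) :
    (Module.finrank K (LS δ μ P) : ℤ) ≤
      (((δ + 2).choose 2 : ℤ) - ∑ i, ((μ i + 1).choose 2 : ℤ)) +
        2 * (3 * (δ : ℤ) - ∑ l, (μ (c l) : ℤ)) ^ 2 := by
  have h012 := hstd 0 1 2 (by decide) (by decide) (by decide)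
  have h345 := hstd 3 4 5 (by decide) (by decide) (by decide)
  have h678 := hstd 6 7 8 (by decide) (by decide) (by decide)
  have hsum : ∑ l, μ (c l) = μ (c 0) + μ (c 1) + μ (c 2) + μ (c 3) + μ (c 4) + μ (c 5) +
      μ (c 6) + μ (c 7) + μ (c 8) := by
    rw [Fin.sum_univ_succ, Fin.sum_univ_eight]
    have e1 : (Fin.succ 0 : Fin 9) = 1 := rfl
    have e2 : (Fin.succ 1 : Fin 9) = 2 := rfl
    have e3 : (Fin.succ 2 : Fin 9) = 3 := rfl
    have e4 : (Fin.succ 3 : Fin 9) = 4 := rfl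
    have e5 : (Fin.succ 4 : Fin 9) = 5 := rfl
    have e6 : (Fin.succ 5 : Fin 9) = 6 := rfl
    have e7 : (Fin.succ 6 : Fin 9) = 7 := rfl
    have e8 : (Fin.succ 7 : Fin 9) = 8 := rfl
    rw [e1, e2, e3, e4, e5, e6, e7, e8]
    ring
  obtain ⟨e, he⟩ : ∃ e, 3 * δ = e + ∑ l, μ (c l) := ⟨3 * δ - ∑ l, μ (c l), by omega⟩
  have heZ : (3 * (δ : ℤ) - ∑ l, (μ (c l) : ℤ)) = e := by
    have : ((3 * δ : ℕ) : ℤ) = ((e + ∑ l, μ (c l) : ℕ) : ℤ) := by rw [he]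
    push_cast at this
    linarith
  rcases Nat.eq_zero_or_pos e with h0 | h0
  · have h1 := std_X P hP δ μ c hc hstd (Or.inl (by rw [heZ, h0]; norm_num))
    rw [h1, heZ, h0]
    rw [heZ, h0] at h
    have h2 : (0 : ℤ) ≤ ((δ + 2).choose 2 : ℤ) - ∑ i, ((μ i + 1).choose 2 : ℤ) := by
      simpa using h
    rw [max_eq_right h2]
    simp
  · rw [heZ] at h ⊢
    obtain ⟨r, σ, hσ⟩ := exists_enum c hc
    have h1 : Fin.append (fun l => μ (c l)) (fun i : Fin r => μ (σ (Fin.natAdd 9 i))) =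
        fun i => μ (σ i) := by
      funext i
      refine Fin.addCases (fun i => ?_) (fun i => ?_) i
      · rw [Fin.append_left, hσ]
      · rw [Fin.append_right]
    have h3 : ∑ i, ((μ i + 1).choose 2 : ℤ) = ∑ l, ((μ (c l) + 1).choose 2 : ℤ) +
        ∑ i : Fin r, ((μ (σ (Fin.natAdd 9 i)) + 1).choose 2 : ℤ) := by
      rw [← Equiv.sum_comp σ, Fin.sum_univ_add]
      simp only [hσ]
    have h2 := main_B (fun i => P (σ i)) (by
      refine hP.comp (fun ij : Fin (9 + r) × Fin 2 => (σ ij.1, ij.2)) ?_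
      rintro ⟨i, j⟩ ⟨i', j'⟩ h
      simp only [Prod.mk.injEq, EmbeddingLike.apply_eq_iff_eq] at h
      rw [h.1, h.2]) δ (fun l => μ (c l)) (fun i => μ (σ (Fin.natAdd 9 i))) hstd e h0 he _
      (by rw [h3]; ring) h
    rw [h1, LS_comp σ δ μ P] at h2
    exact h2

end ShghT
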