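import Mathlib

/-!
# Flows on a circle
-/

namespace ShghT

private theorem flow_greedy (m D k : ℕ) :
    ∑ x ∈ Finset.range k, min m (D - x * m) = min (k * m) D := by
  induction k with
  | zero => simp
  | succ k ih =>
    rw [Finset.sum_range_succ, ih, Nat.succ_mul]
    omega

private theorem flow_mono (f : ℕ → ℕ) {a b : ℕ} (h : a ≤ b) :
    ∑ x ∈ Finset.range a, f x ≤ ∑ x ∈ Finset.range b, f x :=
  Finset.sum_le_sum_of_subset (Finset.range_mono h)

/-- A nonnegative flow on the circle `ℤ/e` (`u x` units go from `x` to `x + 1`) which turns `N` into something `≥ Q`.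
PROOF. `y ≤ C` (if `C < y` then `∑ N ≤ e C < e y ≤ ∑ Q`). `∑ (C - y) = e (C - y) ≥ d := ∑ N - ∑ Q ≥ 0`
(`∑ N ≤ e C`, `∑ Q ≥ e y`), so there are `s x`, `0 ≤ s x ≤ C - y`, with `∑ s = d` (greedy; e.g. induction on the number of
columns, or `Finset.exists_le_...`). Put `τ x = C - y - s x ≥ 0`, `a x = C - N x ≥ 0`, `b x = Q x - y ≥ 0` (integers):
`N x - Q x - s x = τ x - a x - b x` and `∑ τ = ∑ (a + b) ≤ U`. Let `S x = ∑ x' ∈ range x, (τ - a - b) x'` for `x ≤ e` (`S 0 = S e = 0`).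
For `x ≤ x'` the difference `S x' - S x` is a partial sum, so it lies in `[-U, U]` (`0 ≤ ∑ τ ≤ U`, `0 ≤ ∑ (a + b) ≤ U`
over any set of columns). Let `S x₀` be the minimum over `x < e`; `u x = S (x + 1) - S x₀` for `x + 1 < e`, and
`u (e - 1) = S e - S x₀ = S 0 - S x₀`. Then `0 ≤ u ≤ U`, `u x - u (x - 1) = S (x + 1) - S x = N x - Q x - s x ≤ N x - Q x`
cyclically. (For `e = 1` take `u = 0`.) -/
theorem exists_flow (e : ℕ) (he : 0 < e) (N Q : ℕ → ℕ) (C y U : ℕ) (hN : ∀ x < e, N x ≤ C)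
    (hQ : ∀ x < e, y ≤ Q x)
    (hU : ∑ x ∈ Finset.range e, (C - N x) + ∑ x ∈ Finset.range e, (Q x - y) ≤ U)
    (hs : ∑ x ∈ Finset.range e, Q x ≤ ∑ x ∈ Finset.range e, N x) :
    ∃ u : ℕ → ℕ, (∀ x, u x ≤ U) ∧ ∀ x < e, Q x + u x ≤ N x + u ((x + e - 1) % e) := by
  have hsN : ∑ x ∈ Finset.range e, N x ≤ e * C := by
    calc ∑ x ∈ Finset.range e, N x ≤ ∑ _x ∈ Finset.range e, C :=
          Finset.sum_le_sum fun x hx => hN x (Finset.mem_range.1 hx)
      _ = e * C := by simp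
  have hsQ : e * y ≤ ∑ x ∈ Finset.range e, Q x := by
    calc e * y = ∑ _x ∈ Finset.range e, y := by simp
      _ ≤ _ := Finset.sum_le_sum fun x hx => hQ x (Finset.mem_range.1 hx)
  have hyC : y ≤ C := Nat.le_of_mul_le_mul_left (hsQ.trans (hs.trans hsN)) he
  obtain ⟨d, hd⟩ : ∃ d, d = ∑ x ∈ Finset.range e, N x - ∑ x ∈ Finset.range e, Q x := ⟨_, rfl⟩
  have hd2 : d ≤ e * (C - y) := by
    rw [Nat.mul_sub]
    omega
  obtain ⟨s, hs1, hs2⟩ : ∃ s : ℕ → ℕ, (∀ x, s x ≤ C - y) ∧ ∑ x ∈ Finset.range e, s x = d := by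
    refine ⟨fun x => min (C - y) (d - x * (C - y)), fun x => min_le_left _ _, ?_⟩
    rw [flow_greedy]
    exact min_eq_right hd2
  obtain ⟨τ, hτ⟩ : ∃ τ : ℕ → ℕ, ∀ x, τ x = C - y - s x := ⟨_, fun _ => rfl⟩
  obtain ⟨a, ha⟩ : ∃ a : ℕ → ℕ, ∀ x, a x = (C - N x) + (Q x - y) := ⟨_, fun _ => rfl⟩
  have haU : ∑ x ∈ Finset.range e, a x ≤ U := by
    simp only [ha]
    rw [Finset.sum_add_distrib]
    exact hU
  have hid : ∀ x < e, (N x : ℤ) - Q x - s x = τ x - a x := by
    intro x hx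
    have h1 := hN x hx
    have h2 := hQ x hx
    have h3 := hs1 x
    have h4 := hτ x
    have h5 := ha x
    omega
  obtain ⟨T, hT⟩ : ∃ T : ℕ → ℕ, ∀ x, T x = ∑ x' ∈ Finset.range x, τ x' := ⟨_, fun _ => rfl⟩
  obtain ⟨V, hV⟩ : ∃ V : ℕ → ℕ, ∀ x, V x = ∑ x' ∈ Finset.range x, a x' := ⟨_, fun _ => rfl⟩
  have hTm : ∀ p q, p ≤ q → T p ≤ T q := by
    intro p q h
    rw [hT, hT]
    exact flow_mono τ h
  have hVm : ∀ p q, p ≤ q → V p ≤ V q := by
    intro p q h
    rw [hV, hV]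
    exact flow_mono a h
  have hTs : ∀ x, T (x + 1) = T x + τ x := by
    intro x
    rw [hT, hT, Finset.sum_range_succ]
  have hVs : ∀ x, V (x + 1) = V x + a x := by
    intro x
    rw [hV, hV, Finset.sum_range_succ]
  have hT0 : T 0 = 0 := by rw [hT]; simp
  have hV0 : V 0 = 0 := by rw [hV]; simp
  have hTV : T e = V e := by
    have h1 : (T e : ℤ) - V e = 0 := by
      rw [hT, hV]
      push_cast
      rw [← Finset.sum_sub_distrib]
      have h2 : ∑ x ∈ Finset.range e, ((τ x : ℤ) - a x) =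
          ∑ x ∈ Finset.range e, ((N x : ℤ) - Q x - s x) :=
        Finset.sum_congr rfl fun x hx => (hid x (Finset.mem_range.1 hx)).symm
      rw [h2, Finset.sum_sub_distrib, Finset.sum_sub_distrib]
      have h3 : (∑ x ∈ Finset.range e, (s x : ℤ)) = d := by
        rw [← hs2]
        push_cast
        rfl
      have h4 : (∑ x ∈ Finset.range e, (N x : ℤ)) = ((∑ x ∈ Finset.range e, N x : ℕ) : ℤ) := by
        push_cast
        rfl
      have h5 : (∑ x ∈ Finset.range e, (Q x : ℤ)) = ((∑ x ∈ Finset.range e, Q x : ℕ) : ℤ) := by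
        push_cast
        rfl
      rw [h3, h4, h5]
      omega
    omega
  have hVU : V e ≤ U := by
    rw [hV]
    exact haU
  -- the minimum
  obtain ⟨x₀, hx₀, hmin⟩ := Finset.exists_min_image (Finset.range e)
    (fun x => (T x : ℤ) - V x) ⟨0, Finset.mem_range.2 he⟩
  have hx₀' := Finset.mem_range.1 hx₀
  have hmin' : ∀ x ≤ e, (T x₀ : ℤ) - V x₀ ≤ T x - V x := by
    intro x hx
    rcases Nat.lt_or_ge x e with h | h
    · exact hmin x (Finset.mem_range.2 h)
    · have hxe : x = e := le_antisymm hx h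
      have h0 := hmin 0 (Finset.mem_range.2 he)
      simp only [hT0, hV0] at h0
      rw [hxe, hTV]
      simpa using h0
  have hbd : ∀ x ≤ e, (T x : ℤ) - V x - (T x₀ - V x₀) ≤ U := by
    intro x hx
    have h1 := hTm x e hx
    have h2 := hVm x₀ e hx₀'.le
    rcases Nat.le_total x₀ x with h | h
    · have h3 := hVm x₀ x h
      omega
    · have h3 := hTm x x₀ h
      omega
  refine ⟨fun x => if x < e then ((T (x + 1) : ℤ) - V (x + 1) - (T x₀ - V x₀)).toNat else 0,
    fun x => ?_, fun x hx => ?_⟩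
  · beta_reduce
    split_ifs with hx
    · have := hbd (x + 1) hx
      omega
    · exact Nat.zero_le _
  · have hprev : ((x + e - 1) % e < e) ∧ ((T ((x + e - 1) % e + 1) : ℤ) -
        V ((x + e - 1) % e + 1) = T x - V x) := by
      refine ⟨Nat.mod_lt _ he, ?_⟩
      rcases Nat.eq_zero_or_pos x with h | h
      · subst h
        have h1 : (0 + e - 1) % e + 1 = e := by
          rw [Nat.zero_add, Nat.mod_eq_of_lt (by omega)]
          omega
        rw [h1, hT0, hV0, hTV]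
        simp
      · have h1 : (x + e - 1) % e + 1 = x := by
          have h2 : x + e - 1 = (x - 1) + e := by omega
          rw [h2, Nat.add_mod_right, Nat.mod_eq_of_lt (by omega)]
          omega
        rw [h1]
    simp only [if_pos hx, if_pos hprev.1]
    have h1 := hmin' (x + 1) hx
    have h2 := hmin' x hx.le
    have h3 := hid x hx
    have h4 := hTs x
    have h5 := hVs x
    have h6 := hprev.2
    omega

end ShghT
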