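import Mathlib

/-!
# Groups of points of the same type
-/

namespace ShghT

/-- PIGEONHOLE. A set `S` of at least `e U + 2 e (e - 1)` indices, each with a type `f i < 2 e`, contains `U`
disjoint groups of `e` indices of the same type.
PROOF. Induction on `U` (for all `S`). `U = 0`: trivial (`Fin 0 → _`). `U + 1`: `S.card ≥ e + 2 e (e - 1) > 2 e (e - 1)`,
so some fibre `{i ∈ S | f i = q}`, `q < 2 e`, has more than `e - 1` elements
(`Finset.exists_lt_card_fiber_of_mul_lt_card_of_maps_to`, with `Finset.range (2 * e)` and `2 * e * (e - 1)`).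
Take an injection of `Fin e` into it (`Finset.exists_subset_card_eq`, `Finset.equivFinOfCardEq` or
`Finset.orderEmbOfFin`), remove its image from `S` and use the induction hypothesis; combine with `Fin.cons`/`Fin.cases`. -/
theorem exists_groups {r : ℕ} (e U : ℕ) (he : 0 < e) (f : Fin r → ℕ) (hf : ∀ i, f i < 2 * e)
    (S : Finset (Fin r)) (hS : e * U + 2 * e * (e - 1) ≤ S.card) :
    ∃ g : Fin U → Fin e → Fin r,
      (Function.Injective fun ux : Fin U × Fin e => g ux.1 ux.2) ∧ (∀ u x, g u x ∈ S) ∧
      ∀ u x x', f (g u x) = f (g u x') := by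
  induction U generalizing S with
  | zero =>
    refine ⟨fun u => u.elim0, ?_, fun u => u.elim0, fun u => u.elim0⟩
    rintro ⟨u, _⟩
    exact u.elim0
  | succ U ih =>
    have hS' : e * U + e + 2 * e * (e - 1) ≤ S.card := by
      rw [Nat.mul_succ] at hS; exact hS
    obtain ⟨q, _, hq⟩ := Finset.exists_lt_card_fiber_of_mul_lt_card_of_maps_to
      (s := S) (t := Finset.range (2 * e)) (f := f) (n := e - 1)
      (fun i _ => Finset.mem_range.2 (hf i)) (by rw [Finset.card_range]; omega)
    have hq' : e ≤ (S.filter fun i => f i = q).card := by omega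
    obtain ⟨T, hT, hTc⟩ := Finset.exists_subset_card_eq hq'
    have hTS : T ⊆ S := hT.trans (Finset.filter_subset _ _)
    have hc : (S \ T).card = S.card - e := by
      rw [Finset.card_sdiff_of_subset hTS, hTc]
    obtain ⟨g, hg1, hg2, hg3⟩ := ih (S \ T) (by rw [hc]; omega)
    have hmemT : ∀ x, T.orderEmbOfFin hTc x ∈ T := fun x => Finset.orderEmbOfFin_mem T hTc x
    have hnot : ∀ u x, g u x ∉ T := fun u x => (Finset.mem_sdiff.1 (hg2 u x)).2
    refine ⟨Fin.cons (fun x => T.orderEmbOfFin hTc x) g, ?_, ?_, ?_⟩
    · rintro ⟨u, x⟩ ⟨u', x'⟩ h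
      induction u using Fin.cases with
      | zero =>
        induction u' using Fin.cases with
        | zero =>
          simp only [Fin.cons_zero] at h
          have := (T.orderEmbOfFin hTc).injective h
          rw [this]
        | succ u' =>
          simp only [Fin.cons_zero, Fin.cons_succ] at h
          exact absurd (h ▸ hmemT x) (hnot u' x')
      | succ u =>
        induction u' using Fin.cases with
        | zero =>
          simp only [Fin.cons_zero, Fin.cons_succ] at h
          exact absurd (h ▸ hmemT x') (hnot u x)
        | succ u' =>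
          simp only [Fin.cons_succ] at h
          have h1 := @hg1 (u, x) (u', x') h
          rw [Prod.mk.injEq] at h1
          rw [h1.1, h1.2]
    · intro u x
      induction u using Fin.cases with
      | zero => rw [Fin.cons_zero]; exact hTS (hmemT x)
      | succ u => rw [Fin.cons_succ]; exact (Finset.mem_sdiff.1 (hg2 u x)).1
    · intro u x x'
      induction u using Fin.cases with
      | zero =>
        rw [Fin.cons_zero]
        rw [(Finset.mem_filter.1 (hT (hmemT x))).2, (Finset.mem_filter.1 (hT (hmemT x'))).2]
      | succ u => rw [Fin.cons_succ]; exact hg3 u x x'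

end ShghT
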