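import Pool.Agent.ShghX.Per

/-!
# Exact covering for `e = 3`
-/

namespace ShghT

/-- Differences of the pattern (columns `0` and `1` minus column `2`). -/
private noncomputable def Place3_df (m : ℕ) (p : ℤ) (o : Option Bool) : ℤ × ℤ :=
  ((NO 3 m p o 0 : ℤ) - NO 3 m p o 2, (NO 3 m p o 1 : ℤ) - NO 3 m p o 2)

/-- The available difference vectors of a point. -/
private def Place3_Av (m : ℕ) (x : ℤ × ℤ) : Prop := ∃ p o, Place3_df m p o = x

private theorem Place3_df_mod (m : ℕ) (p : ℤ) (s : Bool) :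
    Place3_df m p (some s) = Place3_df (m % 6) p (some s) := by
  obtain ⟨c, hc⟩ := NO_mod 3 (by norm_num) m
  have h0 := hc p s 0 (by norm_num)
  have h1 := hc p s 1 (by norm_num)
  have h2 := hc p s 2 (by norm_num)
  norm_num at h0 h1 h2
  unfold Place3_df
  rw [h0, h1, h2]
  push_cast
  ext
  · show _ + (c : ℤ) - (_ + c) = _ - _
    ring
  · show _ + (c : ℤ) - (_ + c) = _ - _
    ring

private theorem Place3_df_none (m : ℕ) (hm : 1 ≤ m) (p : ℤ) :
    Place3_df m p none = Place3_df m p (some true) +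
      ((-(if p % 3 = 0 then 1 else 0) + (if (p + 1) % 3 = 0 then 1 else 0)) -
        (-(if p % 3 = 2 then 1 else 0) + (if (p + 1) % 3 = 2 then 1 else 0)),
       (-(if p % 3 = 1 then 1 else 0) + (if (p + 1) % 3 = 1 then 1 else 0)) -
        (-(if p % 3 = 2 then 1 else 0) + (if (p + 1) % 3 = 2 then 1 else 0))) := by
  have h0 := NO_none 3 (by norm_num) m hm p 0 (by norm_num)
  have h1 := NO_none 3 (by norm_num) m hm p 1 (by norm_num)
  have h2 := NO_none 3 (by norm_num) m hm p 2 (by norm_num)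
  push_cast at h0 h1 h2
  unfold Place3_df
  rw [h0, h1, h2]
  ext
  · simp only [Prod.fst_add]
    ring
  · simp only [Prod.snd_add]
    ring

private theorem Place3_flat0 (m : ℕ) (h : m % 6 = 0 ∨ m % 6 = 5) (p : ℤ) (hp : p = 0 ∨ p = 1 ∨ p = 2) :
    Place3_df m p (some true) = (0, 0) := by
  rw [Place3_df_mod]
  rcases h with h | h <;> rw [h] <;> rcases hp with rfl | rfl | rfl <;>
    unfold Place3_df <;> simp only [NO_some] <;> decide +kernel


private theorem Place3_unit0 (m : ℕ) (h : m % 6 = 1 ∨ m % 6 = 4) :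
    Place3_Av m (1, 0) ∧ Place3_Av m (0, 1) ∧ Place3_Av m (-1, -1) := by
  refine ⟨⟨0, some true, ?_⟩, ⟨1, some true, ?_⟩, ⟨2, some true, ?_⟩⟩ <;>
    rw [Place3_df_mod] <;> rcases h with h | h <;> rw [h] <;>
    unfold Place3_df <;> simp only [NO_some] <;> decide +kernel

private theorem Place3_dbl0 (m : ℕ) (h : m % 6 = 2 ∨ m % 6 = 3) :
    Place3_Av m (2, 1) ∧ Place3_Av m (1, -1) ∧ Place3_Av m (-1, 1) ∧ Place3_Av m (-1, -2) := by
  refine ⟨⟨0, some true, ?_⟩, ⟨0, some false, ?_⟩, ⟨1, some true, ?_⟩, ⟨2, some true, ?_⟩⟩ <;>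
    rw [Place3_df_mod] <;> rcases h with h | h <;> rw [h] <;>
    unfold Place3_df <;> simp only [NO_some] <;> decide +kernel

private theorem Place3_flat1 (m : ℕ) (h : m % 6 = 0 ∨ m % 6 = 5) : Place3_Av m (0, 0) :=
  ⟨0, some true, Place3_flat0 m h 0 (Or.inl rfl)⟩

private theorem Place3_flat2 (m : ℕ) (hm : 1 ≤ m) (h : m % 6 = 0 ∨ m % 6 = 5) :
    Place3_Av m (2, 1) ∧ Place3_Av m (-1, 1) ∧ Place3_Av m (-1, -2) := by
  refine ⟨⟨2, none, ?_⟩, ⟨0, none, ?_⟩, ⟨1, none, ?_⟩⟩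
  · rw [Place3_df_none m hm, Place3_flat0 m h 2 (by simp)]
    decide
  · rw [Place3_df_none m hm, Place3_flat0 m h 0 (by simp)]
    decide
  · rw [Place3_df_none m hm, Place3_flat0 m h 1 (by simp)]
    decide

/-- The `n`-fold sums of elements of `A`. -/
private def Place3_Rn (A : ℤ × ℤ → Prop) : ℕ → ℤ × ℤ → Prop
  | 0, x => x = 0
  | n + 1, x => ∃ y, A y ∧ Place3_Rn A n (x - y)

private theorem Place3_zero (A : ℤ × ℤ → Prop) (x : ℤ × ℤ) (h : x = 0) : Place3_Rn A 0 x := h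

private theorem Place3_sum {ι : Type*} [DecidableEq ι] (A : ℤ × ℤ → Prop) (P : ι → ℤ × ℤ → Prop)
    (S : Finset ι) : ∀ (x : ℤ × ℤ), (∀ i ∈ S, ∀ y, A y → P i y) → Place3_Rn A S.card x →
      ∃ v : ι → ℤ × ℤ, (∀ i ∈ S, P i (v i)) ∧ ∑ i ∈ S, v i = x := by
  induction S using Finset.induction_on with
  | empty =>
    intro x _ h
    refine ⟨fun _ => 0, by simp, ?_⟩
    rw [Finset.sum_empty]
    exact h.symm
  | insert a S ha ih =>
    intro x hA h
    rw [Finset.card_insert_of_notMem ha] at h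
    obtain ⟨y, hy, h⟩ := h
    obtain ⟨v, hv, hs⟩ := ih (x - y) (fun i hi => hA i (Finset.mem_insert_of_mem hi)) h
    refine ⟨Function.update v a y, ?_, ?_⟩
    · intro i hi
      by_cases hia : i = a
      · subst hia
        rw [Function.update_self]
        exact hA i hi y hy
      · rw [Function.update_of_ne hia]
        exact hv i (Finset.mem_of_mem_insert_of_ne hi hia)
    · rw [Finset.sum_insert ha, Function.update_self]
      have : ∑ i ∈ S, Function.update v a y i = ∑ i ∈ S, v i := by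
        refine Finset.sum_congr rfl fun i hi => ?_
        rw [Function.update_of_ne]
        rintro rfl
        exact ha hi
      rw [this, hs]
      abel

private theorem Place3_union {ι : Type*} [DecidableEq ι] (P : ι → ℤ × ℤ → Prop)
    (S T : Finset ι) (hST : Disjoint S T) (x y : ℤ × ℤ)
    (h1 : ∃ v : ι → ℤ × ℤ, (∀ i ∈ S, P i (v i)) ∧ ∑ i ∈ S, v i = x)
    (h2 : ∃ v : ι → ℤ × ℤ, (∀ i ∈ T, P i (v i)) ∧ ∑ i ∈ T, v i = y) :
    ∃ v : ι → ℤ × ℤ, (∀ i ∈ S ∪ T, P i (v i)) ∧ ∑ i ∈ S ∪ T, v i = x + y := by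
  obtain ⟨v, hv, rfl⟩ := h1
  obtain ⟨w, hw, rfl⟩ := h2
  refine ⟨fun i => if i ∈ S then v i else w i, ?_, ?_⟩
  · intro i hi
    by_cases hiS : i ∈ S
    · simp only [if_pos hiS]
      exact hv i hiS
    · simp only [if_neg hiS]
      exact hw i ((Finset.mem_union.mp hi).resolve_left hiS)
  · rw [Finset.sum_union hST]
    congr 1
    · refine Finset.sum_congr rfl fun i hi => ?_
      rw [if_pos hi]
    · refine Finset.sum_congr rfl fun i hi => ?_
      rw [if_neg (Finset.disjoint_right.mp hST hi)]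

/-- The difference vectors used for the flat points. -/
private def Place3_FA (x : ℤ × ℤ) : Prop := x = (0, 0) ∨ x = (2, 1) ∨ x = (-1, 1) ∨ x = (-1, -2)

/-- The difference vectors used for the unit points. -/
private def Place3_UA (x : ℤ × ℤ) : Prop := x = (1, 0) ∨ x = (0, 1) ∨ x = (-1, -1)

/-- The difference vectors used for the double points. -/
private def Place3_DA (x : ℤ × ℤ) : Prop := x = (2, 1) ∨ x = (1, -1) ∨ x = (-1, 1) ∨ x = (-1, -2)

private def Place3_FS : ℕ → List (ℤ × ℤ)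
  | 0 => [(0, 0)]
  | 1 => [(2, 1), (-1, 1), (0, 0)]
  | _ => [(1, -1), (0, 0)]

private def Place3_DS : ℕ → List (ℤ × ℤ)
  | 0 => [(0, 0)]
  | 1 => [(-1, 1), (1, -1)]
  | _ => [(1, -1), (0, 0)]

private theorem Place3_F_add (n k : ℕ) (x : ℤ × ℤ) (h : Place3_Rn Place3_FA n x) :
    Place3_Rn Place3_FA (n + k) x := by
  induction k with
  | zero => exact h
  | succ k ih =>
    refine ⟨(0, 0), Or.inl rfl, ?_⟩
    have : x - (0, 0) = x := sub_zero x
    rw [this]
    exact ih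

private theorem Place3_D_add (n k : ℕ) (x : ℤ × ℤ) (h : Place3_Rn Place3_DA n x) :
    Place3_Rn Place3_DA (n + 2 * k) x := by
  induction k with
  | zero => exact h
  | succ k ih =>
    show Place3_Rn Place3_DA (n + 2 * k + 1 + 1) x
    refine ⟨(1, -1), Or.inr (Or.inl rfl), (-1, 1), Or.inr (Or.inr (Or.inl rfl)), ?_⟩
    have : x - (1, -1) - (-1, 1) = x := by
      ext
      · show x.1 - 1 - (-1) = x.1
        ring
      · show x.2 - (-1) - 1 = x.2
        ring
    rw [this]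
    exact ih

private theorem Place3_F_mem (f : ℕ) (hf : f ≤ 2) (x : ℤ × ℤ) (hx : x ∈ Place3_FS f) :
    Place3_Rn Place3_FA f x := by
  have hf' : f = 0 ∨ f = 1 ∨ f = 2 := by omega
  rcases hf' with rfl | rfl | rfl
  · simp only [Place3_FS, List.mem_singleton] at hx
    exact hx
  · simp only [Place3_FS, List.mem_cons, List.not_mem_nil, or_false] at hx
    refine ⟨x, ?_, sub_self x⟩
    rcases hx with rfl | rfl | rfl
    · exact Or.inr (Or.inl rfl)
    · exact Or.inr (Or.inr (Or.inl rfl))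
    · exact Or.inl rfl
  · simp only [Place3_FS, List.mem_cons, List.not_mem_nil, or_false] at hx
    rcases hx with rfl | rfl
    · exact ⟨(2, 1), Or.inr (Or.inl rfl), (-1, -2), Or.inr (Or.inr (Or.inr rfl)), Place3_zero _ _ (by decide)⟩
    · exact ⟨(0, 0), Or.inl rfl, (0, 0), Or.inl rfl, Place3_zero _ _ (by decide)⟩

private theorem Place3_D_mem (d : ℕ) (hd : d ≤ 3) (x : ℤ × ℤ) (hx : x ∈ Place3_DS d) :
    Place3_Rn Place3_DA d x := by
  have hd' : d = 0 ∨ d = 1 ∨ d = 2 ∨ d = 3 := by omega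
  have i1 : Place3_DA (2, 1) := Or.inl rfl
  have i2 : Place3_DA (1, -1) := Or.inr (Or.inl rfl)
  have i3 : Place3_DA (-1, 1) := Or.inr (Or.inr (Or.inl rfl))
  have i4 : Place3_DA (-1, -2) := Or.inr (Or.inr (Or.inr rfl))
  rcases hd' with rfl | rfl | rfl | rfl
  · simp only [Place3_DS, List.mem_singleton] at hx
    exact hx
  · simp only [Place3_DS, List.mem_cons, List.not_mem_nil, or_false] at hx
    refine ⟨x, ?_, sub_self x⟩
    rcases hx with rfl | rfl
    · exact i3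
    · exact i2
  · simp only [Place3_DS, List.mem_cons, List.not_mem_nil, or_false] at hx
    rcases hx with rfl | rfl
    · exact ⟨(2, 1), i1, (-1, -2), i4, Place3_zero _ _ (by decide)⟩
    · exact ⟨(1, -1), i2, (-1, 1), i3, Place3_zero _ _ (by decide)⟩
  · simp only [Place3_DS, List.mem_cons, List.not_mem_nil, or_false] at hx
    rcases hx with rfl | rfl
    · exact ⟨(1, -1), i2, (1, -1), i2, (-1, 1), i3, Place3_zero _ _ (by decide)⟩
    · exact ⟨(2, 1), i1, (-1, 1), i3, (-1, -2), i4, Place3_zero _ _ (by decide)⟩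

private theorem Place3_U_mem (n0 n1 n2 : ℕ) :
    Place3_Rn Place3_UA (n0 + n1 + n2) ((n0 : ℤ) - n2, (n1 : ℤ) - n2) := by
  induction n2 with
  | zero =>
    induction n1 with
    | zero =>
      induction n0 with
      | zero => exact Place3_zero _ _ (by simp)
      | succ n0 ih =>
        refine ⟨(1, 0), Or.inl rfl, ?_⟩
        have e : ((((n0 + 1 : ℕ) : ℤ) - ((0 : ℕ) : ℤ), ((0 : ℕ) : ℤ) - ((0 : ℕ) : ℤ)) : ℤ × ℤ) - (1, 0)
            = ((n0 : ℤ) - ((0 : ℕ) : ℤ), ((0 : ℕ) : ℤ) - ((0 : ℕ) : ℤ)) := by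
          ext
          · simp
          · simp
        rw [e]
        exact ih
    | succ n1 ih =>
      refine ⟨(0, 1), Or.inr (Or.inl rfl), ?_⟩
      have e : ((((n0 : ℕ) : ℤ) - ((0 : ℕ) : ℤ), ((n1 + 1 : ℕ) : ℤ) - ((0 : ℕ) : ℤ)) : ℤ × ℤ) - (0, 1)
          = ((n0 : ℤ) - ((0 : ℕ) : ℤ), (n1 : ℤ) - ((0 : ℕ) : ℤ)) := by
        ext
        · simp
        · simp
      rw [e]
      exact ih
  | succ n2 ih =>
    refine ⟨(-1, -1), Or.inr (Or.inr rfl), ?_⟩
    have e : ((((n0 : ℕ) : ℤ) - ((n2 + 1 : ℕ) : ℤ), ((n1 : ℕ) : ℤ) - ((n2 + 1 : ℕ) : ℤ)) : ℤ × ℤ)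
        - (-1, -1) = ((n0 : ℤ) - (n2 : ℤ), (n1 : ℤ) - (n2 : ℤ)) := by
      ext
      · simp only [Prod.fst_sub]
        push_cast
        ring
      · simp only [Prod.snd_sub]
        push_cast
        ring
    rw [e]
    exact ih

/-- Reachable by `u` unit points. -/
private def Place3_un (u : ℕ) (a b : ℤ) : Prop :=
  ((u : ℤ) - a - b) % 3 = 0 ∧ 0 ≤ ((u : ℤ) - a - b) / 3 ∧ 0 ≤ a + ((u : ℤ) - a - b) / 3 ∧
    0 ≤ b + ((u : ℤ) - a - b) / 3

private instance (u : ℕ) (a b : ℤ) : Decidable (Place3_un u a b) := by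
  unfold Place3_un
  infer_instance

private theorem Place3_un_mem (u k : ℕ) (a b : ℤ) (h : Place3_un u a b) :
    Place3_Rn Place3_UA (u + 3 * k) (a, b) := by
  obtain ⟨h1, h2, h3, h4⟩ := h
  obtain ⟨t, ht⟩ : ∃ t : ℤ, t = ((u : ℤ) - a - b) / 3 := ⟨_, rfl⟩
  rw [← ht] at h2 h3 h4
  have ht' : (u : ℤ) = a + b + 3 * t := by omega
  obtain ⟨n0, hn0⟩ := Int.eq_ofNat_of_zero_le h3
  obtain ⟨n1, hn1⟩ := Int.eq_ofNat_of_zero_le h4
  obtain ⟨n2, hn2⟩ := Int.eq_ofNat_of_zero_le h2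
  have h5 := Place3_U_mem (n0 + k) (n1 + k) (n2 + k)
  have e1 : n0 + k + (n1 + k) + (n2 + k) = u + 3 * k := by omega
  have e2 : ((((n0 + k : ℕ) : ℤ) - ((n2 + k : ℕ) : ℤ), ((n1 + k : ℕ) : ℤ) - ((n2 + k : ℕ) : ℤ)) :
      ℤ × ℤ) = (a, b) := by
    ext
    · show ((n0 + k : ℕ) : ℤ) - ((n2 + k : ℕ) : ℤ) = a
      push_cast
      omega
    · show ((n1 + k : ℕ) : ℤ) - ((n2 + k : ℕ) : ℤ) = b
      push_cast
      omega
  rw [e1, e2] at h5
  exact h5

private def Place3_Qs : List (ℕ × ℕ) := [(0, 0), (1, 0), (2, 0), (1, 1), (2, 1), (3, 1)]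

/-- The finite check. -/
private theorem Place3_check : ∀ f : Fin 3, ∀ u : Fin 6, ∀ d : Fin 4, ∀ q ∈ Place3_Qs,
    ∀ s : Fin 4, (u.1 + 12 - q.1 - q.2 - s.1) % 3 = 0 → 1 ≤ f.1 + u.1 + d.1 →
      (s.1 = 0 → 2 ≤ f.1 + u.1 + d.1) →
      ∃ s0 : Fin 4, ∃ s1 : Fin 4, ∃ s2 : Fin 4, s0.1 + s1.1 + s2.1 = s.1 ∧
        ∃ F ∈ Place3_FS f.1, ∃ D ∈ Place3_DS d.1,
          (Place3_un u.1 ((q.1 : ℤ) + s0.1 - q.2 - s2.1 - F.1 - D.1)
            ((s1.1 : ℤ) - q.2 - s2.1 - F.2 - D.2) ∨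
          Place3_un u.1 ((q.1 : ℤ) + s0.1 - s2.1 - F.1 - D.1)
            ((q.2 : ℤ) + s1.1 - s2.1 - F.2 - D.2)) := by
  decide +kernel

/-- The numbers of the types determine the reachable vectors. -/
private theorem Place3_combine {r : ℕ} (m : Fin r → ℕ) (xF xU xD : ℤ × ℤ)
    (hF : Place3_Rn Place3_FA (Finset.univ.filter fun i : Fin r =>
      1 ≤ m i ∧ (m i % 6 = 0 ∨ m i % 6 = 5)).card xF)
    (hU : Place3_Rn Place3_UA (Finset.univ.filter fun i : Fin r =>
      (m i % 6 = 1 ∨ m i % 6 = 4)).card xU)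
    (hD : Place3_Rn Place3_DA (Finset.univ.filter fun i : Fin r =>
      (m i % 6 = 2 ∨ m i % 6 = 3)).card xD) :
    ∃ v : Fin r → ℤ × ℤ, (∀ i, Place3_Av (m i) (v i)) ∧ ∑ i, v i = xF + xU + xD := by
  classical
  set F := Finset.univ.filter fun i : Fin r => 1 ≤ m i ∧ (m i % 6 = 0 ∨ m i % 6 = 5) with hFd
  set U := Finset.univ.filter fun i : Fin r => (m i % 6 = 1 ∨ m i % 6 = 4) with hUd
  set D := Finset.univ.filter fun i : Fin r => (m i % 6 = 2 ∨ m i % 6 = 3) with hDd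
  set Z := Finset.univ.filter fun i : Fin r => m i = 0 with hZd
  have h1 := Place3_sum Place3_FA (fun i => Place3_Av (m i)) F xF (by
    intro i hi y hy
    rw [hFd, Finset.mem_filter] at hi
    obtain ⟨a1, a2, a3⟩ := Place3_flat2 (m i) hi.2.1 hi.2.2
    rcases hy with rfl | rfl | rfl | rfl
    · exact Place3_flat1 (m i) hi.2.2
    · exact a1
    · exact a2
    · exact a3) hF
  have h2 := Place3_sum Place3_UA (fun i => Place3_Av (m i)) U xU (by
    intro i hi y hy
    rw [hUd, Finset.mem_filter] at hi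
    obtain ⟨a1, a2, a3⟩ := Place3_unit0 (m i) hi.2
    rcases hy with rfl | rfl | rfl
    · exact a1
    · exact a2
    · exact a3) hU
  have h3 := Place3_sum Place3_DA (fun i => Place3_Av (m i)) D xD (by
    intro i hi y hy
    rw [hDd, Finset.mem_filter] at hi
    obtain ⟨a1, a2, a3, a4⟩ := Place3_dbl0 (m i) hi.2
    rcases hy with rfl | rfl | rfl | rfl
    · exact a1
    · exact a2
    · exact a3
    · exact a4) hD
  have h4 : ∃ v : Fin r → ℤ × ℤ, (∀ i ∈ Z, Place3_Av (m i) (v i)) ∧ ∑ i ∈ Z, v i = 0 := by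
    refine ⟨fun _ => 0, ?_, by simp⟩
    intro i hi
    rw [hZd, Finset.mem_filter] at hi
    rw [hi.2]
    exact Place3_flat1 0 (by simp)
  have d1 : Disjoint F U := by
    rw [Finset.disjoint_left]
    intro i hi hj
    rw [hFd, Finset.mem_filter] at hi
    rw [hUd, Finset.mem_filter] at hj
    omega
  have d2 : Disjoint (F ∪ U) D := by
    rw [Finset.disjoint_left]
    intro i hi hj
    rw [hFd, hUd, Finset.mem_union, Finset.mem_filter, Finset.mem_filter] at hi
    rw [hDd, Finset.mem_filter] at hj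
    omega
  have d3 : Disjoint (F ∪ U ∪ D) Z := by
    rw [Finset.disjoint_left]
    intro i hi hj
    rw [hFd, hUd, hDd, Finset.mem_union, Finset.mem_union, Finset.mem_filter, Finset.mem_filter,
      Finset.mem_filter] at hi
    rw [hZd, Finset.mem_filter] at hj
    omega
  have h5 := Place3_union (fun i => Place3_Av (m i)) F U d1 xF xU h1 h2
  have h6 := Place3_union (fun i => Place3_Av (m i)) (F ∪ U) D d2 (xF + xU) xD h5 h3
  have h7 := Place3_union (fun i => Place3_Av (m i)) (F ∪ U ∪ D) Z d3 (xF + xU + xD) 0 h6 h4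
  have hall : F ∪ U ∪ D ∪ Z = Finset.univ := by
    ext i
    simp only [hFd, hUd, hDd, hZd, Finset.mem_union, Finset.mem_filter, Finset.mem_univ, true_and,
      iff_true]
    omega
  rw [hall, add_zero] at h7
  obtain ⟨v, hv, hs⟩ := h7
  exact ⟨v, fun i => hv i (Finset.mem_univ i), hs⟩

private theorem Place3_total {r : ℕ} (m : Fin r → ℕ) : ∃ k : ℤ,
    ((∑ i, (m i + 1).choose 2 : ℕ) : ℤ) = 3 * k + (Finset.univ.filter fun i : Fin r =>
      (m i % 6 = 1 ∨ m i % 6 = 4)).card := by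
  classical
  have h : ∀ n : ℕ, ∃ k : ℤ, (((n + 1).choose 2 : ℕ) : ℤ) =
      3 * k + (if n % 6 = 1 ∨ n % 6 = 4 then 1 else 0) := by
    intro n
    have h1 := sum_NO 3 (by norm_num) n 0 (some true)
    rw [Finset.sum_range_succ, Finset.sum_range_succ, Finset.sum_range_one] at h1
    have h2 : ∀ a b : ℤ, Place3_df n 0 (some true) = (a, b) →
        (((n + 1).choose 2 : ℕ) : ℤ) = 3 * (NO 3 n 0 (some true) 2 : ℤ) + a + b := by
      intro a b hab
      have e1 := congrArg Prod.fst hab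
      have e2 := congrArg Prod.snd hab
      unfold Place3_df at e1 e2
      simp only at e1 e2
      rw [← h1]
      push_cast
      linarith
    have hc : (n % 6 = 0 ∨ n % 6 = 5) ∨ (n % 6 = 1 ∨ n % 6 = 4) ∨ (n % 6 = 2 ∨ n % 6 = 3) := by
      omega
    rcases hc with hc | hc | hc
    · rw [if_neg (by omega)]
      exact ⟨_, by rw [h2 0 0 (Place3_flat0 n hc 0 (by simp))]; ring⟩
    · rw [if_pos hc]
      refine ⟨(NO 3 n 0 (some true) 2 : ℤ), ?_⟩
      rw [h2 1 0 ?_]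
      · rw [add_zero]
      · rw [Place3_df_mod]
        rcases hc with h | h <;> rw [h] <;>
          unfold Place3_df <;> simp only [NO_some] <;> decide +kernel
    · rw [if_neg (by omega)]
      refine ⟨(NO 3 n 0 (some true) 2 : ℤ) + 1, ?_⟩
      rw [h2 2 1 ?_]
      · ring
      · rw [Place3_df_mod]
        rcases hc with h | h <;> rw [h] <;>
          unfold Place3_df <;> simp only [NO_some] <;> decide +kernel
  choose k hk using h
  refine ⟨∑ i, k (m i), ?_⟩
  push_cast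
  rw [Finset.sum_congr rfl fun i _ => hk (m i), Finset.sum_add_distrib, ← Finset.mul_sum,
    Finset.sum_ite, Finset.sum_const_zero, add_zero, Finset.sum_const, nsmul_eq_mul, mul_one]

/-- `e = 3`. The demand is `Q 0, Q 1, Q 2`, `Q 1 ≤ Q 2 ≤ Q 1 + 1`, `Q 2 ≤ Q 0 ≤ Q 2 + 2`; it may also be reflected.
FACTS. (1) Up to an additive constant (the same for the three columns; `NO_mod`, and `Place2.lean` for the style) the
pattern of a point of multiplicity `m` at the centre `p` is, in the columns `(p, p + 1, p + 2)` mod 3: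
`m % 6 ∈ {0, 5}`: `(0, 0, 0)` for `some s`, `(-1, 1, 0)` for `none` (only if `1 ≤ m`): a FLAT point;
`m % 6 ∈ {1, 4}`: `(1, 0, 0)` for `some s`: a UNIT point;
`m % 6 ∈ {2, 3}`: `(2, 1, 0)` for `some true`, `(2, 0, 1)` for `some false`: a DOUBLE point (all six permutations of
`(2, 1, 0)` occur).
(2) Let `f, u, d` be the numbers of flat points with `1 ≤ m`, unit points, double points, and `Q' = (Q 0 - Q 1, 0, Q 2 - Q 1)`, one of
`(0,0,0), (1,0,0), (2,0,0), (1,0,1), (2,0,1), (3,0,1)`. Let `s = ∑ C(m i + 1, 2) - (Q 0 + Q 1 + Q 2) ≥ 0`. Since the total is fixed, it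
suffices to find patterns of the points and `σ x ≥ 0`, `∑ σ = s`, such that the sum of the patterns minus `Q' + σ` (or minus
the reflected demand `(Q' 0, Q' 2, Q' 1) + σ`) is a constant vector `(k, k, k)`: then the constants match automatically, because the
sums of the three columns are equal.
(3) Three unit points at the three columns give a constant; so do two double points with opposite patterns
(`(2,1,0) + (0,1,2)`), and flat points. So one may keep `u ≤ 5`, `d ≤ 3`, `f ≤ 2` points (remove three unit points while `u ≥ 6`, two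
double points while `d ≥ 4`, one flat point while `f ≥ 3`), and the remaining finitely many cases are checked by `decide`:
if `s = 0` and `f + u + d ≥ 2`, or `s ≥ 1` and (w.l.o.g. `s ≤ 3`, since three units of surplus can be spread; note
`s ≡ u - ∑ Q'` mod 3), a solution exists. (Checked by computer, 9628 cases; the only failures are single points with
`s = 0`.) If `f = u = d = 0` then the total is `0` and `Q = 0`.
Finally make the circles admissible by `exists_rep`, `NO_shift`. -/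
theorem place3 (Q : ℕ → ℕ) (h1 : Q 1 ≤ Q 2) (h2 : Q 2 ≤ Q 1 + 1) (h3 : Q 2 ≤ Q 0)
    (h4 : Q 0 ≤ Q 2 + 2) {r : ℕ} (m : Fin r → ℕ)
    (hT : Q 0 + Q 1 + Q 2 ≤ ∑ i, (m i + 1).choose 2)
    (h : Q 0 + Q 1 + Q 2 < ∑ i, (m i + 1).choose 2 ∨
      2 ≤ (Finset.univ.filter fun i => 1 ≤ m i).card) :
    ∃ (p : Fin r → ℤ) (o : Fin r → Option Bool),
      (∀ i, 0 ≤ circO 3 (p i) (o i) ∧ circO 3 (p i) (o i) < 4 * ((3 : ℕ) : ℤ)) ∧
      ((∀ x < 3, Q x ≤ ∑ i, NO 3 (m i) (p i) (o i) x) ∨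
        ∀ x < 3, Q ((3 - x) % 3) ≤ ∑ i, NO 3 (m i) (p i) (o i) x) := by
  classical
  obtain ⟨K, hK⟩ := Place3_total m
  set T := ∑ i, (m i + 1).choose 2 with hTd
  obtain ⟨f, hf⟩ : ∃ f, f = (Finset.univ.filter fun i : Fin r =>
      1 ≤ m i ∧ (m i % 6 = 0 ∨ m i % 6 = 5)).card := ⟨_, rfl⟩
  obtain ⟨u, hu⟩ : ∃ u, u = (Finset.univ.filter fun i : Fin r =>
      (m i % 6 = 1 ∨ m i % 6 = 4)).card := ⟨_, rfl⟩
  obtain ⟨d, hd⟩ : ∃ d, d = (Finset.univ.filter fun i : Fin r =>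
      (m i % 6 = 2 ∨ m i % 6 = 3)).card := ⟨_, rfl⟩
  rw [← hu] at hK
  -- the number of points which are not null
  have hcard : (Finset.univ.filter fun i : Fin r => 1 ≤ m i).card = f + u + d := by
    rw [hf, hu, hd, ← Finset.card_union_of_disjoint, ← Finset.card_union_of_disjoint]
    · congr 1
      ext i
      simp only [Finset.mem_union, Finset.mem_filter, Finset.mem_univ, true_and]
      omega
    · rw [Finset.disjoint_left]
      intro i hi hj
      simp only [Finset.mem_union, Finset.mem_filter, Finset.mem_univ, true_and] at hi hj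
      omega
    · rw [Finset.disjoint_left]
      intro i hi hj
      simp only [Finset.mem_filter, Finset.mem_univ, true_and] at hi hj
      omega
  -- the choice of the patterns gives the conclusion
  have fin : ∀ (s0 s1 s2 k : ℕ) (a b : ℤ) (v : Fin r → ℤ × ℤ),
      (∀ i, Place3_Av (m i) (v i)) → ∑ i, v i = (a, b) →
      T = Q 0 + Q 1 + Q 2 + s0 + s1 + s2 + 3 * k →
      ((a = ((Q 0 : ℤ) + s0) - (Q 2 + s2) ∧ b = ((Q 1 : ℤ) + s1) - (Q 2 + s2)) ∨
        (a = ((Q 0 : ℤ) + s0) - (Q 1 + s2) ∧ b = ((Q 2 : ℤ) + s1) - (Q 1 + s2))) →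
      ∃ (p : Fin r → ℤ) (o : Fin r → Option Bool),
        (∀ i, 0 ≤ circO 3 (p i) (o i) ∧ circO 3 (p i) (o i) < 4 * ((3 : ℕ) : ℤ)) ∧
        ((∀ x < 3, Q x ≤ ∑ i, NO 3 (m i) (p i) (o i) x) ∨
          ∀ x < 3, Q ((3 - x) % 3) ≤ ∑ i, NO 3 (m i) (p i) (o i) x) := by
    intro s0 s1 s2 k a b v hv hsum hTe hab
    choose p o hpo using hv
    choose t ht using fun i => exists_rep 3 (by norm_num) (p i) (o i)
    refine ⟨fun i => p i + ((3 : ℕ) : ℤ) * t i, o, fun i => ht i, ?_⟩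
    have hN : ∀ x, ∑ i, NO 3 (m i) (p i + ((3 : ℕ) : ℤ) * t i) (o i) x =
        ∑ i, NO 3 (m i) (p i) (o i) x := fun x =>
      Finset.sum_congr rfl fun i _ => NO_shift 3 (m i) (p i) (o i) x (t i)
    have e1 : ((∑ i, NO 3 (m i) (p i) (o i) 0 : ℕ) : ℤ) - (∑ i, NO 3 (m i) (p i) (o i) 2 : ℕ) = a := by
      have := congrArg Prod.fst hsum
      rw [Prod.fst_sum] at this
      push_cast
      rw [← Finset.sum_sub_distrib]
      refine Eq.trans ?_ this
      refine Finset.sum_congr rfl fun i _ => ?_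
      rw [← hpo i]
      rfl
    have e2 : ((∑ i, NO 3 (m i) (p i) (o i) 1 : ℕ) : ℤ) - (∑ i, NO 3 (m i) (p i) (o i) 2 : ℕ) = b := by
      have := congrArg Prod.snd hsum
      rw [Prod.snd_sum] at this
      push_cast
      rw [← Finset.sum_sub_distrib]
      refine Eq.trans ?_ this
      refine Finset.sum_congr rfl fun i _ => ?_
      rw [← hpo i]
      rfl
    have e3 : ∑ i, NO 3 (m i) (p i) (o i) 0 + ∑ i, NO 3 (m i) (p i) (o i) 1 +
        ∑ i, NO 3 (m i) (p i) (o i) 2 = T := by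
      rw [hTd, ← Finset.sum_add_distrib, ← Finset.sum_add_distrib]
      refine Finset.sum_congr rfl fun i _ => ?_
      have := sum_NO 3 (by norm_num) (m i) (p i) (o i)
      rw [Finset.sum_range_succ, Finset.sum_range_succ, Finset.sum_range_one] at this
      exact this
    rcases hab with ⟨ha, hb⟩ | ⟨ha, hb⟩
    · left
      intro x hx
      show Q x ≤ ∑ i, NO 3 (m i) (p i + ((3 : ℕ) : ℤ) * t i) (o i) x
      rw [hN]
      have hx' : x = 0 ∨ x = 1 ∨ x = 2 := by omega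
      rcases hx' with rfl | rfl | rfl
      · omega
      · omega
      · omega
    · right
      intro x hx
      show Q ((3 - x) % 3) ≤ ∑ i, NO 3 (m i) (p i + ((3 : ℕ) : ℤ) * t i) (o i) x
      rw [hN]
      have hx' : x = 0 ∨ x = 1 ∨ x = 2 := by omega
      rcases hx' with rfl | rfl | rfl
      · show Q 0 ≤ _
        omega
      · show Q 2 ≤ _
        omega
      · show Q 1 ≤ _
        omega
  -- some point is not null
  have hpos : 1 ≤ f + u + d := by
    by_contra hcon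
    have h0 : (Finset.univ.filter fun i : Fin r => 1 ≤ m i).card = 0 := by omega
    rw [Finset.card_eq_zero, Finset.filter_eq_empty_iff] at h0
    have hT0 : T = 0 := by
      rw [hTd]
      refine Finset.sum_eq_zero fun i _ => ?_
      have := h0 (Finset.mem_univ i)
      have hmi : m i = 0 := by omega
      rw [hmi]
      rfl
    rw [hcard] at h
    omega
  -- reduction of the numbers
  obtain ⟨s, hs⟩ : ∃ s, T = Q 0 + Q 1 + Q 2 + s := ⟨T - (Q 0 + Q 1 + Q 2), by omega⟩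
  have hs0 : s = 0 → 2 ≤ f + u + d := by
    intro h0
    rw [hcard] at h
    omega
  obtain ⟨f', kf, hf', hfe, hf2⟩ : ∃ f' kf, f' < 3 ∧ f = f' + kf ∧ (f' = f ∨ f' = 2) := by
    by_cases hc : f < 3
    · exact ⟨f, 0, hc, rfl, Or.inl rfl⟩
    · exact ⟨2, f - 2, by omega, by omega, Or.inr rfl⟩
  obtain ⟨u', ku, hu', hue, hu2⟩ : ∃ u' ku, u' < 6 ∧ u = u' + 3 * ku ∧ (u' = u ∨ 3 ≤ u') := by
    by_cases hc : u < 6
    · exact ⟨u, 0, hc, rfl, Or.inl rfl⟩
    · exact ⟨3 + u % 3, u / 3 - 1, by omega, by omega, Or.inr (by omega)⟩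
  obtain ⟨d', kd, hd', hde, hd2⟩ : ∃ d' kd, d' < 4 ∧ d = d' + 2 * kd ∧ (d' = d ∨ 2 ≤ d') := by
    by_cases hc : d < 4
    · exact ⟨d, 0, hc, rfl, Or.inl rfl⟩
    · exact ⟨2 + d % 2, d / 2 - 1, by omega, by omega, Or.inr (by omega)⟩
  obtain ⟨s', ks, hs', hse, hs2⟩ : ∃ s' ks, s' < 4 ∧ s = s' + 3 * ks ∧ (s' = s ∨ 1 ≤ s') := by
    by_cases hc : s < 4
    · exact ⟨s, 0, hc, rfl, Or.inl rfl⟩
    · exact ⟨1 + (s - 1) % 3, (s - 1) / 3, by omega, by omega, Or.inr (by omega)⟩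
  have hq : (Q 0 - Q 1, Q 2 - Q 1) ∈ Place3_Qs := by
    have c1 : Q 2 = Q 1 ∨ Q 2 = Q 1 + 1 := by omega
    have c2 : Q 0 = Q 2 ∨ Q 0 = Q 2 + 1 ∨ Q 0 = Q 2 + 2 := by omega
    unfold Place3_Qs
    simp only [List.mem_cons, List.not_mem_nil, or_false, Prod.mk.injEq]
    omega
  obtain ⟨s0, s1, s2, hsum, F, hF, D, hD, hun⟩ := Place3_check ⟨f', hf'⟩ ⟨u', hu'⟩ ⟨d', hd'⟩
    (Q 0 - Q 1, Q 2 - Q 1) hq ⟨s', hs'⟩ (by
      show (u' + 12 - (Q 0 - Q 1) - (Q 2 - Q 1) - s') % 3 = 0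
      omega) (by
      show 1 ≤ f' + u' + d'
      omega) (by
      show s' = 0 → 2 ≤ f' + u' + d'
      intro h0
      omega)
  change F ∈ Place3_FS f' at hF
  change D ∈ Place3_DS d' at hD
  change s0.1 + s1.1 + s2.1 = s' at hsum
  have hRF : Place3_Rn Place3_FA f F := by
    rw [hfe]
    exact Place3_F_add f' kf F (Place3_F_mem f' (by omega) F hF)
  have hRD : Place3_Rn Place3_DA d D := by
    rw [hde]
    exact Place3_D_add d' kd D (Place3_D_mem d' (by omega) D hD)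
  rcases hun with hun | hun
  · have hRU := Place3_un_mem u' ku _ _ hun
    rw [← hue] at hRU
    obtain ⟨v, hv, hvs⟩ := Place3_combine m F _ D (hf ▸ hRF) (hu ▸ hRU) (hd ▸ hRD)
    refine fin s0.1 s1.1 s2.1 ks _ _ v hv (hvs.trans (Prod.ext rfl rfl)) (by omega) (Or.inl ?_)
    constructor
    · show F.1 + (((Q 0 - Q 1 : ℕ) : ℤ) + s0.1 - ((Q 2 - Q 1 : ℕ) : ℤ) - s2.1 - F.1 - D.1) + D.1 = _
      omega
    · show F.2 + ((s1.1 : ℤ) - ((Q 2 - Q 1 : ℕ) : ℤ) - s2.1 - F.2 - D.2) + D.2 = _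
      omega
  · have hRU := Place3_un_mem u' ku _ _ hun
    rw [← hue] at hRU
    obtain ⟨v, hv, hvs⟩ := Place3_combine m F _ D (hf ▸ hRF) (hu ▸ hRU) (hd ▸ hRD)
    refine fin s0.1 s1.1 s2.1 ks _ _ v hv (hvs.trans (Prod.ext rfl rfl)) (by omega) (Or.inr ?_)
    constructor
    · show F.1 + (((Q 0 - Q 1 : ℕ) : ℤ) + s0.1 - s2.1 - F.1 - D.1) + D.1 = _
      omega
    · show F.2 + (((Q 2 - Q 1 : ℕ) : ℤ) + s1.1 - s2.1 - F.2 - D.2) + D.2 = _
      omega

end ShghT
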