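import Pool.Agent.ShghW.Ranks

/-!
# The patterns depend on the multiplicity modulo `2 e` only, up to a constant
-/

namespace ShghT

/-- The lower end of the interval of the columns of rank at most `r`. -/
private def Per_lo (p : ℤ) (s : Bool) (r : ℕ) : ℤ :=
  if s = true then p - ((r - 1) / 2 : ℕ) else p - (r / 2 : ℕ)

private theorem Per_rk_le (p : ℤ) (s : Bool) (r : ℕ) (hr : 0 < r) (j : ℤ) :
    rk p s j ≤ r ↔ Per_lo p s r ≤ j ∧ j < Per_lo p s r + r := by
  unfold rk Per_lo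
  cases s
  · rw [if_neg (by decide), if_neg (by decide), max_le_iff]
    omega
  · rw [if_pos rfl, if_pos rfl, max_le_iff]
    omega

/-- The number of elements of a class in an interval. -/
private noncomputable def Per_K (e : ℕ) (ρ : ℕ) (a : ℤ) (L : ℕ) : ℕ :=
  ((Finset.Ico a (a + L)).filter (fun j : ℤ => j % e = ρ)).card

private theorem Per_one (e : ℕ) (he : 0 < e) (ρ : ℕ) (hρ : ρ < e) (b j : ℤ) :
    (b ≤ j ∧ j < b + e ∧ j % e = ρ) ↔ j = b + ((ρ : ℤ) - b) % e := by
  have he' : (0 : ℤ) < e := by exact_mod_cast he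
  have hρ' : (ρ : ℤ) < e := by exact_mod_cast hρ
  constructor
  · rintro ⟨h1, h2, h3⟩
    have h4 := Int.emod_add_mul_ediv j e
    rw [h3] at h4
    have h5 : (ρ : ℤ) - b = (j - b) + e * (-(j / e)) := by linarith
    rw [h5, Int.add_mul_emod_self_left, Int.emod_eq_of_lt (by omega) (by omega)]
    ring
  · intro h
    have h1 := Int.emod_nonneg ((ρ : ℤ) - b) he'.ne'
    have h2 := Int.emod_lt_of_pos ((ρ : ℤ) - b) he'
    refine ⟨by omega, by omega, ?_⟩
    have h3 := Int.emod_add_mul_ediv ((ρ : ℤ) - b) e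
    have h4 : j = ρ + e * (-(((ρ : ℤ) - b) / e)) := by
      rw [h]
      linarith
    rw [h4, Int.add_mul_emod_self_left, Int.emod_eq_of_lt (by omega) hρ']

private theorem Per_K_add (e : ℕ) (he : 0 < e) (ρ : ℕ) (hρ : ρ < e) (a : ℤ) (L : ℕ) :
    Per_K e ρ a (L + e) = Per_K e ρ a L + 1 := by
  unfold Per_K
  have h1 : (Finset.Ico a (a + ((L + e : ℕ) : ℤ))).filter (fun j : ℤ => j % e = ρ) =
      insert ((a + L) + ((ρ : ℤ) - (a + L)) % e)
        ((Finset.Ico a (a + L)).filter (fun j : ℤ => j % e = ρ)) := by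
    ext j
    rw [Finset.mem_insert, Finset.mem_filter, Finset.mem_filter, Finset.mem_Ico, Finset.mem_Ico,
      ← Per_one e he ρ hρ]
    push_cast
    constructor
    · rintro ⟨⟨h2, h3⟩, h4⟩
      by_cases h5 : j < a + L
      · exact Or.inr ⟨⟨h2, h5⟩, h4⟩
      · exact Or.inl ⟨by omega, by omega, h4⟩
    · rintro (⟨h2, h3, h4⟩ | ⟨⟨h2, h3⟩, h4⟩)
      · exact ⟨⟨by omega, by omega⟩, h4⟩
      · exact ⟨⟨h2, by omega⟩, h4⟩
  rw [h1, Finset.card_insert_of_notMem]
  intro h2
  rw [Finset.mem_filter, Finset.mem_Ico] at h2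
  have he' : (0 : ℤ) < e := by exact_mod_cast he
  have h3 := Int.emod_nonneg ((ρ : ℤ) - (a + L)) he'.ne'
  omega

private theorem Per_K_shift (e : ℕ) (ρ : ℕ) (a : ℤ) (L : ℕ) :
    Per_K e ρ (a - e) L = Per_K e ρ a L := by
  unfold Per_K
  refine Finset.card_nbij' (fun j => j + e) (fun j => j - e) ?_ ?_ ?_ ?_
  · intro j hj
    have hj' := Finset.mem_coe.1 hj
    rw [Finset.mem_filter, Finset.mem_Ico] at hj'
    apply Finset.mem_coe.2
    rw [Finset.mem_filter, Finset.mem_Ico]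
    show (a ≤ j + e ∧ j + e < a + L) ∧ (j + (e : ℤ)) % e = ρ
    rw [Int.add_emod_right]
    exact ⟨⟨by omega, by omega⟩, hj'.2⟩
  · intro j hj
    have hj' := Finset.mem_coe.1 hj
    rw [Finset.mem_filter, Finset.mem_Ico] at hj'
    apply Finset.mem_coe.2
    rw [Finset.mem_filter, Finset.mem_Ico]
    show (a - e ≤ j - e ∧ j - (e : ℤ) < a - e + L) ∧ (j - (e : ℤ)) % e = ρ
    rw [Int.sub_emod_right]
    exact ⟨⟨by omega, by omega⟩, hj'.2⟩
  · intro j _
    show j + (e : ℤ) - e = j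
    ring
  · intro j _
    show j - (e : ℤ) + e = j
    ring

/-- The number of the columns of rank at most `r` in a class. -/
private noncomputable def Per_C (e : ℕ) (p : ℤ) (s : Bool) (ρ : ℕ) (r : ℕ) : ℕ := Per_K e ρ (Per_lo p s r) r

private theorem Per_C_add (e : ℕ) (he : 0 < e) (p : ℤ) (s : Bool) (ρ : ℕ) (hρ : ρ < e) (r : ℕ)
    (hr : 0 < r) : Per_C e p s ρ (r + 2 * e) = Per_C e p s ρ r + 2 := by
  unfold Per_C
  have h1 : Per_lo p s (r + 2 * e) = Per_lo p s r - e := by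
    unfold Per_lo
    cases s
    · rw [if_neg (by decide), if_neg (by decide)]
      omega
    · rw [if_pos rfl, if_pos rfl]
      omega
  rw [h1, Per_K_shift]
  have h2 : r + 2 * e = r + e + e := by ring
  rw [h2, Per_K_add e he ρ hρ, Per_K_add e he ρ hρ]

private theorem Per_succ (e m : ℕ) (p : ℤ) (s : Bool) (ρ : ℕ) :
    NO e (m + 1) p (some s) ρ = NO e m p (some s) ρ + Per_C e p s ρ (m + 1) := by
  set F := (Finset.Icc (p - ((m + 1 : ℕ) : ℤ)) (p + ((m + 1 : ℕ) : ℤ))).filter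
    (fun j : ℤ => j % e = ρ) with hF
  have h1 : NO e m p (some s) ρ = ∑ j ∈ F, ((m : ℤ) + 1 - rkO p (some s) j).toNat := by
    unfold NO
    apply Finset.sum_subset
    · apply Finset.filter_subset_filter
      apply Finset.Icc_subset_Icc
      · push_cast
        omega
      · push_cast
        omega
    · intro j hj hj'
      by_contra hne
      apply hj'
      rw [hF, Finset.mem_filter] at hj
      rw [Finset.mem_filter]
      exact ⟨mem_Icc_of_rkO_le p (some s) m j (by omega), hj.2⟩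
  have h2 : Per_C e p s ρ (m + 1) = ∑ j ∈ F, if rk p s j ≤ ((m + 1 : ℕ) : ℤ) then 1 else 0 := by
    rw [← Finset.card_filter]
    unfold Per_C Per_K
    congr 1
    ext j
    rw [Finset.mem_filter, Finset.mem_filter, hF, Finset.mem_filter, Finset.mem_Ico,
      Per_rk_le p s (m + 1) (Nat.succ_pos m)]
    constructor
    · rintro ⟨h3, h4⟩
      refine ⟨⟨?_, h4⟩, h3⟩
      exact mem_Icc_of_rkO_le p (some s) (m + 1) j
        ((Per_rk_le p s (m + 1) (Nat.succ_pos m) j).2 h3)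
    · rintro ⟨⟨-, h4⟩, h3⟩
      exact ⟨h3, h4⟩
  rw [h1, h2, ← Finset.sum_add_distrib]
  unfold NO
  refine Finset.sum_congr rfl fun j _ => ?_
  show ((((m + 1 : ℕ) : ℤ)) + 1 - rk p s j).toNat =
    ((m : ℤ) + 1 - rk p s j).toNat + if rk p s j ≤ ((m + 1 : ℕ) : ℤ) then 1 else 0
  push_cast
  split_ifs with h3 <;> omega

private theorem Per_zero (e : ℕ) (p : ℤ) (s : Bool) (ρ : ℕ) : NO e 0 p (some s) ρ = 0 := by
  unfold NO
  apply Finset.sum_eq_zero
  intro j _
  have := rkO_pos p (some s) j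
  omega

private theorem Per_base (e : ℕ) (he : 0 < e) (p : ℤ) (s : Bool) (ρ : ℕ) (hρ : ρ < e) :
    NO e (2 * e) p (some s) ρ = 2 * e + 1 := by
  have he' : (0 : ℤ) < e := by exact_mod_cast he
  set lo := Per_lo p s (2 * e) with hlo
  set j0 : ℤ := lo + ((ρ : ℤ) - lo) % e with hj0
  obtain ⟨a1, a2, a3⟩ := (Per_one e he ρ hρ lo j0).2 hj0
  have hr := Per_rk_le p s (2 * e) (by omega)
  have hsum : rk p s j0 + rk p s (j0 + e) = 2 * e + 1 := by
    unfold rk
    unfold Per_lo at hlo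
    cases s
    · rw [if_neg (by decide), if_neg (by decide)]
      rw [if_neg (by decide)] at hlo
      rw [max_eq_left (by omega), max_eq_right (by omega)]
      ring
    · rw [if_pos rfl, if_pos rfl]
      rw [if_pos rfl] at hlo
      rw [max_eq_right (by omega), max_eq_left (by omega)]
      ring
  have b1 : rk p s j0 ≤ ((2 * e : ℕ) : ℤ) := (hr j0).2 ⟨a1, by push_cast; omega⟩
  have b2 : rk p s (j0 + e) ≤ ((2 * e : ℕ) : ℤ) := (hr _).2 ⟨by omega, by push_cast; omega⟩
  have hsub : ({j0, j0 + (e : ℤ)} : Finset ℤ) ⊆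
      (Finset.Icc (p - ((2 * e : ℕ) : ℤ)) (p + ((2 * e : ℕ) : ℤ))).filter
        (fun j : ℤ => j % e = ρ) := by
    intro j hj
    rw [Finset.mem_insert, Finset.mem_singleton] at hj
    rw [Finset.mem_filter]
    rcases hj with rfl | rfl
    · exact ⟨mem_Icc_of_rkO_le p (some s) (2 * e) _ b1, a3⟩
    · refine ⟨mem_Icc_of_rkO_le p (some s) (2 * e) _ b2, ?_⟩
      rw [Int.add_emod_right]
      exact a3
  have h1 : NO e (2 * e) p (some s) ρ =
      ∑ j ∈ ({j0, j0 + (e : ℤ)} : Finset ℤ), (((2 * e : ℕ) : ℤ) + 1 - rk p s j).toNat := by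
    unfold NO
    symm
    apply Finset.sum_subset hsub
    intro j hj hj'
    rw [Finset.mem_filter] at hj
    have h2 : ¬ rk p s j ≤ ((2 * e : ℕ) : ℤ) := by
      intro h3
      obtain ⟨h4, h5⟩ := (hr j).1 h3
      apply hj'
      rw [Finset.mem_insert, Finset.mem_singleton]
      push_cast at h5
      by_cases h6 : j < lo + e
      · left
        exact (Per_one e he ρ hρ lo j).1 ⟨h4, h6, hj.2⟩
      · right
        have h7 := (Per_one e he ρ hρ lo (j - e)).1
          ⟨by omega, by omega, by rw [Int.sub_emod_right]; exact hj.2⟩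
        rw [← hj0] at h7
        omega
    show (((2 * e : ℕ) : ℤ) + 1 - rk p s j).toNat = 0
    omega
  rw [h1, Finset.sum_pair (by omega)]
  push_cast at b1 b2 ⊢
  omega

private theorem Per_step (e : ℕ) (he : 0 < e) (m : ℕ) (p : ℤ) (s : Bool) (ρ : ℕ) (hρ : ρ < e) :
    NO e (m + 2 * e) p (some s) ρ = NO e m p (some s) ρ + (2 * m + 2 * e + 1) := by
  induction m with
  | zero =>
    rw [Nat.zero_add, Per_base e he p s ρ hρ, Per_zero]
    ring
  | succ m ih =>
    have h1 : m + 1 + 2 * e = (m + 2 * e) + 1 := by ring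
    rw [h1, Per_succ, ih, Per_succ]
    have h2 : m + 2 * e + 1 = (m + 1) + 2 * e := by ring
    rw [h2, Per_C_add e he p s ρ hρ (m + 1) (Nat.succ_pos m)]
    ring

/-- PERIODICITY.
PROOF. It is enough to treat `m = m' + 2 e` (induction on `m / (2 e)`, add the constants): then
`NO e m p (some s) ρ = NO e m' p (some s) ρ + (2 m + 1 - 2 e)`. By symmetry (`rk p false l = rk (-p) true (-l)`, reflect
`j ↦ -j`, `ρ ↦ (e - ρ) % e`) or by the same proof it is enough to treat `s = true`; by `NO_true_eq`-like shifts one may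
also first write `NO e m p (some s) ρ = ∑ j ∈ Icc (-m) m, if (p + j) % e = ρ then (m + 1 - rk 0 s j).toNat else 0`.
The integers `j` with `rk 0 s j ≤ 2 e` form a set of `2 e` consecutive integers (`rk_le_iff` in ShghT/Interp.lean):
each class mod `e` contains exactly two of them, `j` and `j'`, `|j - j'| = e`, and `rk j + rk j' = 2 e + 1`
(`rk 0 true i = 2 i` for `i ≥ 1`, `rk 0 true (i - e) = 2 (e - i) + 1` for `i ≤ e`, ...); they contribute
`2 (m + 1) - (2 e + 1)`. The others: `j > 0` of rank `> 2 e` is `j' + e` with `j' > 0`, `rk j = rk j' + 2 e`, and `j ≤ 0` of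
rank `> 2 e` is `j' - e`, `j' ≤ 0`, `rk j = rk j' + 2 e` (true for `s = true`; mirrored for `s = false`); so they contribute
`NO e m' p (some s) ρ`.
(Any other proof is fine, e.g. by induction on `m`: `NO e (m + 1) p o ρ - NO e m p o ρ = #{j : j % e = ρ, rk j ≤ m + 1}`, and
`#{j : j % e = ρ, rk p s j ≤ n + 2 e} = #{j : j % e = ρ, rk p s j ≤ n} + 2`.) -/
theorem NO_mod (e : ℕ) (he : 0 < e) (m : ℕ) : ∃ c : ℕ, ∀ (p : ℤ) (s : Bool) (ρ : ℕ), ρ < e →
    NO e m p (some s) ρ = NO e (m % (2 * e)) p (some s) ρ + c := by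
  induction m using Nat.strong_induction_on with
  | _ m ih =>
    by_cases hm : m < 2 * e
    · refine ⟨0, fun p s ρ _ => ?_⟩
      rw [Nat.mod_eq_of_lt hm, Nat.add_zero]
    · push Not at hm
      obtain ⟨k, rfl⟩ := Nat.exists_eq_add_of_le hm
      obtain ⟨c, hc⟩ := ih k (by omega)
      refine ⟨c + (2 * k + 2 * e + 1), fun p s ρ hρ => ?_⟩
      rw [Nat.add_comm (2 * e) k, Per_step e he k p s ρ hρ, Nat.add_mod_right, hc p s ρ hρ]
      ring

/-- Points of the same type placed at all columns: constant.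
PROOF. By `NO_mod` reduce to `∑ x : Fin e, NO e q x (some true) ρ`; by `NO_true_eq` this is
`∑ j ∈ Icc (-q) q, #{x < e : (x + j) % e = ρ} * (q + 1 - rk 0 true j).toNat`, and the number is `1`. -/
theorem group_const (e : ℕ) (he : 0 < e) (m : Fin e → ℕ) (q : ℕ) (hm : ∀ x, m x % (2 * e) = q) :
    ∃ A : ℕ, ∀ ρ < e, ∑ x : Fin e, NO e (m x) ((x : ℕ) : ℤ) (some true) ρ = A := by
  choose c hc using NO_mod e he
  have he' : (0 : ℤ) < e := by exact_mod_cast he
  refine ⟨(∑ j ∈ Finset.Icc (-(q : ℤ)) q, ((q : ℤ) + 1 - rk 0 true j).toNat) +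
    ∑ x : Fin e, c (m x), fun ρ hρ => ?_⟩
  have h1 : ∀ x : Fin e, NO e (m x) ((x : ℕ) : ℤ) (some true) ρ =
      NO e q ((x : ℕ) : ℤ) (some true) ρ + c (m x) := by
    intro x
    rw [hc (m x) _ true ρ hρ, hm x]
  rw [Finset.sum_congr rfl fun x _ => h1 x, Finset.sum_add_distrib]
  congr 1
  rw [Finset.sum_congr rfl fun (x : Fin e) _ => NO_true_eq e he q ((x : ℕ) : ℤ) ρ,
    Finset.sum_comm]
  refine Finset.sum_congr rfl fun j _ => ?_
  have h2 : 0 ≤ ((ρ : ℤ) - j) % e := Int.emod_nonneg _ he'.ne'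
  have h3 : ((ρ : ℤ) - j) % e < e := Int.emod_lt_of_pos _ he'
  set x₀ : Fin e := ⟨(((ρ : ℤ) - j) % e).toNat, by omega⟩ with hx₀
  rw [Finset.sum_eq_single x₀]
  · rw [if_pos]
    have h4 : ((x₀ : ℕ) : ℤ) = ((ρ : ℤ) - j) % e := by
      rw [hx₀]
      exact Int.toNat_of_nonneg h2
    rw [h4]
    have h5 := (Per_one e he ρ hρ j (j + ((ρ : ℤ) - j) % e)).2 rfl
    rw [add_comm]
    exact h5.2.2
  · intro x _ hx
    rw [if_neg]
    intro h4
    apply hx
    have h5 := (Per_one e he ρ hρ j ((x : ℕ) + j)).1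
      ⟨by omega, by have := x.isLt; omega, h4⟩
    apply Fin.ext
    rw [hx₀]
    show (x : ℕ) = (((ρ : ℤ) - j) % e).toNat
    omega
  · intro h
    exact absurd (Finset.mem_univ _) h

end ShghT
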