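import Pool.Agent.ShghX.Group
import Pool.Agent.ShghX.Per
import Pool.Agent.ShghX.Flow
import Pool.Agent.ShghT.CombC

/-!
# Many points: exact covering
-/

namespace ShghT

private theorem PlaceX_NO_zero (e : ℕ) (p : ℤ) (o : Option Bool) (ρ : ℕ) :
    NO e 0 p o ρ = 0 := by
  unfold NO
  apply Finset.sum_eq_zero
  intro j _
  have := rkO_pos p o j
  omega

private theorem PlaceX_split {r : ℕ} {ι : Type} [Fintype ι] (γ : ι → Fin r)
    (hγ : Function.Injective γ) (F : Fin r → ℕ) :
    ∑ i, F i = ∑ a, F (γ a) + ∑ i ∈ (Finset.univ.map ⟨γ, hγ⟩)ᶜ, F i := by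
  rw [← Finset.sum_add_sum_compl (Finset.univ.map ⟨γ, hγ⟩) F, Finset.sum_map]
  rfl

/-- The number of `v < u` in `Fin U`. -/
private theorem PlaceX_count (U u : ℕ) (hu : u ≤ U) (a : ℤ) :
    ∑ v : Fin U, (if v.val < u then a else 0) = u * a := by
  rw [Fin.sum_univ_eq_sum_range (fun v => if v < u then a else 0) U, ← Finset.sum_filter,
    Finset.sum_const, nsmul_eq_mul]
  have h1 : (Finset.range U).filter (fun v => v < u) = Finset.range u := by
    ext v
    simp only [Finset.mem_filter, Finset.mem_range]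
    omega
  rw [h1, Finset.card_range]

private theorem PlaceX_arith (e c : ℕ) (he : 0 < e) (hc2 : 2 * c ≤ e ^ 2 + e + 2) :
    e * (e * (e - 1) + c) + 2 * e * (e - 1) ≤ 2 * e ^ 3 := by
  obtain ⟨k, rfl⟩ : ∃ k, e = k + 1 := ⟨e - 1, by omega⟩
  rw [Nat.add_sub_cancel]
  have h2 : (k + 1) * (2 * c) ≤ (k + 1) * ((k + 1) ^ 2 + (k + 1) + 2) := Nat.mul_le_mul_left _ hc2
  have h3 : k ≤ k * k := Nat.le_mul_self k
  have h4 : (k + 1) * k ≤ (k + 1) * (k * k) := Nat.mul_le_mul_left _ h3
  nlinarith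

/-- The least multiple of `e` above `W + (e - 1) ^ 2`. -/
private theorem PlaceX_T (e W : ℕ) (he : 0 < e) : ∃ T : ℕ, W + (e - 1) ^ 2 ≤ e * T ∧
    e * T ≤ W + e * (e - 1) := by
  refine ⟨(W + (e - 1) ^ 2 + (e - 1)) / e, ?_, ?_⟩
  · have h1 := Nat.div_add_mod (W + (e - 1) ^ 2 + (e - 1)) e
    have h2 := Nat.mod_lt (W + (e - 1) ^ 2 + (e - 1)) he
    omega
  · have h1 := Nat.div_add_mod (W + (e - 1) ^ 2 + (e - 1)) e
    have h3 : (e - 1) ^ 2 + (e - 1) = e * (e - 1) := by
      obtain ⟨k, rfl⟩ : ∃ k, e = k + 1 := ⟨e - 1, by omega⟩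
      rw [Nat.add_sub_cancel]
      ring
    omega

/-- Moving `u x` units from the column `x` to the column `x + 1`. -/
private theorem PlaceX_move (e : ℕ) (he : 0 < e) (U : ℕ) (g : Fin U → Fin e → ℕ)
    (hg : ∀ v x, 1 ≤ g v x) (u : ℕ → ℕ) (hu : ∀ x, u x ≤ U) (ρ : ℕ) (hρ : ρ < e) :
    ((∑ a : Fin U × Fin e, NO e (g a.1 a.2) ((a.2 : ℕ) : ℤ)
        (if a.1.val < u a.2 then none else some true) ρ : ℕ) : ℤ)
      = ((∑ a : Fin U × Fin e, NO e (g a.1 a.2) ((a.2 : ℕ) : ℤ) (some true) ρ : ℕ) : ℤ)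
        - u ρ + u ((ρ + e - 1) % e) := by
  have key : ∀ a : Fin U × Fin e, ((NO e (g a.1 a.2) ((a.2 : ℕ) : ℤ)
        (if a.1.val < u a.2 then none else some true) ρ : ℕ) : ℤ)
      = (NO e (g a.1 a.2) ((a.2 : ℕ) : ℤ) (some true) ρ : ℕ)
        + (if a.1.val < u a.2 then (if (a.2 : ℕ) = (ρ + e - 1) % e then (1 : ℤ) else 0)
          - (if (a.2 : ℕ) = ρ then 1 else 0) else 0) := by
    rintro ⟨v, x⟩
    by_cases h : v.val < u x
    · simp only [if_pos h]
      rw [NO_none e he _ (hg v x) _ ρ hρ]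
      have hx := x.2
      have e1 : (((x : ℕ) : ℤ) % e = ρ) ↔ ((x : ℕ) = ρ) := by
        rw [Int.emod_eq_of_lt (by omega) (by omega)]
        omega
      have e2 : ((((x : ℕ) : ℤ) + 1) % e = ρ) ↔ ((x : ℕ) = (ρ + e - 1) % e) := by
        have e3 : (ρ + e - 1) % e = if ρ = 0 then e - 1 else ρ - 1 := by
          split_ifs with h0
          · subst h0
            rw [Nat.zero_add]
            exact Nat.mod_eq_of_lt (by omega)
          · have : ρ + e - 1 = (ρ - 1) + e := by omega
            rw [this, Nat.add_mod_right]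
            exact Nat.mod_eq_of_lt (by omega)
        have e4 : (((x : ℕ) : ℤ) + 1) % e = if (x : ℕ) + 1 = e then 0 else (x : ℕ) + 1 := by
          split_ifs with h0
          · have : ((x : ℕ) : ℤ) + 1 = e := by omega
            rw [this, Int.emod_self]
            rfl
          · exact Int.emod_eq_of_lt (by omega) (by omega)
        rw [e3, e4]
        split_ifs <;> omega
      rw [if_congr e1 rfl rfl, if_congr e2 rfl rfl]
      ring
    · simp only [if_neg h]
      ring
  push_cast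
  rw [Finset.sum_congr rfl fun a _ => key a, Finset.sum_add_distrib]
  have h2 : ∑ a : Fin U × Fin e, (if a.1.val < u a.2 then
        (if (a.2 : ℕ) = (ρ + e - 1) % e then (1 : ℤ) else 0)
          - (if (a.2 : ℕ) = ρ then 1 else 0) else 0)
      = u ((ρ + e - 1) % e) - u ρ := by
    rw [Fintype.sum_prod_type_right]
    have hc : ∀ x : Fin e, ∑ v : Fin U, (if v.val < u x then
        (if (x : ℕ) = (ρ + e - 1) % e then (1 : ℤ) else 0)
          - (if (x : ℕ) = ρ then 1 else 0) else 0)
        = (if (x : ℕ) = (ρ + e - 1) % e then (u x : ℤ) else 0)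
          - (if (x : ℕ) = ρ then (u x : ℤ) else 0) := by
      intro x
      rw [PlaceX_count U (u x) (hu x), mul_sub, mul_ite, mul_ite, mul_one, mul_zero]
    rw [Finset.sum_congr rfl fun x _ => hc x, Finset.sum_sub_distrib]
    have hs : ∀ y : ℕ, y < e → ∑ x : Fin e, (if (x : ℕ) = y then (u x : ℤ) else 0) = u y := by
      intro y hy
      rw [Finset.sum_eq_single (⟨y, hy⟩ : Fin e)]
      · simp
      · intro b _ hb
        rw [if_neg]
        intro h
        exact hb (Fin.ext h)
      · simp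
    rw [hs _ (Nat.mod_lt _ he), hs _ hρ]
  rw [h2]
  ring

/-- Exact covering of the demand `Q` if there are at least `2 e ^ 3` points.
PROOF. `U = e (e - 1) + c`, `S = {i | 1 ≤ m i}`, `f i = m i % (2 e)`. `e U + 2 e (e - 1) ≤ 2 e ^ 3 ≤ S.card` (use
`2 c ≤ e ^ 2 + e + 2` and `0 ≤ (e - 1) (e - 2)`). `exists_groups` gives `g`. Let `G` be the range of `(u, x) ↦ g u x`.
Put `m' i = if i ∈ G then 0 else m i` (the ungrouped points), `W = cnd m'`. Let `T` be minimal with
`W + (e - 1) ^ 2 ≤ e T`, `n = e T - W`; so `(e - 1) ^ 2 ≤ n ≤ (e - 1) ^ 2 + (e - 1) = e (e - 1)`. `comb_fill e he m' T`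
gives positions of the ungrouped points and of `n` simple points such that every column gets at least, hence (the sum
is `e T`, `Nr_sum`) exactly `T`. Without the simple points the column `x` gets `T - s x`, `s x` = number of simple points
in the column, `∑ s = n`. Place the point `g u x` at the column `x` (`some true`): for every `u` this is a constant
(`group_const`, the type is `f (g u 0)`); let `A` be the sum of these constants, `C = A + T`, `N x = A + (T - s x)`. So
`N x ≤ C`, `∑ (C - N x) = n ≤ e (e - 1)`, `∑ (Q x - y) = c`, `∑ N = ∑ i, C(m i + 1, 2) ≥ ∑ Q` (`sum_NO`). `exists_flow` gives `u x ≤ U`.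
For every column `x` change the mode of the points `g v x`, `v < u x`, to `none`: by `NO_none` (`1 ≤ m` as
`g v x ∈ S`) this takes one unit from the column `x` and gives it to `(x + 1) % e`. The new counts are
`N x - u x + u ((x + e - 1) % e) ≥ Q x`. Finally replace all centres `p i` by `p i + e t` with admissible circles
(`exists_rep`), this does not change anything by `NO_shift`.
(Book-keeping: the final `p i` is `x` for `i = g u x ∈ G` and the centre given by `comb_fill` for `i ∉ G`; the sum over `i` is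
split into `i ∈ G` (reindexed by the injection `(u, x) ↦ g u x`, `Finset.sum_image` / `Finset.sum_map`) and `i ∉ G`, where `m i = m' i`,
and `NO e 0 _ _ _ = 0`.) -/
theorem placeX (e : ℕ) (he : 0 < e) (Q : ℕ → ℕ) (y c : ℕ) (hy : ∀ x < e, y ≤ Q x)
    (hc : ∑ x ∈ Finset.range e, Q x = e * y + c) (hc2 : 2 * c ≤ e ^ 2 + e + 2) {r : ℕ}
    (m : Fin r → ℕ) (hcard : 2 * e ^ 3 ≤ (Finset.univ.filter fun i => 1 ≤ m i).card)
    (hT : ∑ x ∈ Finset.range e, Q x ≤ ∑ i, (m i + 1).choose 2) :
    ∃ (p : Fin r → ℤ) (o : Fin r → Option Bool),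
      (∀ i, 0 ≤ circO e (p i) (o i) ∧ circO e (p i) (o i) < 4 * (e : ℤ)) ∧
      ∀ x < e, Q x ≤ ∑ i, NO e (m i) (p i) (o i) x := by
  classical
  -- it suffices to find positions on arbitrary circles
  suffices hsuff : ∃ (p : Fin r → ℤ) (o : Fin r → Option Bool),
      ∀ x < e, Q x ≤ ∑ i, NO e (m i) (p i) (o i) x by
    obtain ⟨p, o, hpo⟩ := hsuff
    choose t ht using fun i => exists_rep e he (p i) (o i)
    refine ⟨fun i => p i + e * t i, o, ht, fun x hx => ?_⟩
    simp only [NO_shift]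
    exact hpo x hx
  obtain ⟨U, hU⟩ : ∃ U, U = e * (e - 1) + c := ⟨_, rfl⟩
  have hUS : e * U + 2 * e * (e - 1) ≤ (Finset.univ.filter fun i => 1 ≤ m i).card := by
    rw [hU]
    exact le_trans (PlaceX_arith e c he hc2) hcard
  obtain ⟨g, hginj, hgS, hgf⟩ := exists_groups e U he (fun i => m i % (2 * e))
    (fun i => Nat.mod_lt _ (by omega)) (Finset.univ.filter fun i => 1 ≤ m i) hUS
  set γ : Fin U × Fin e → Fin r := fun ux => g ux.1 ux.2 with hγ
  have hm1 : ∀ a, 1 ≤ m (γ a) := fun a => (Finset.mem_filter.1 (hgS a.1 a.2)).2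
  set G : Finset (Fin r) := Finset.univ.map ⟨γ, hginj⟩ with hG
  set m' : Fin r → ℕ := fun i => if i ∈ G then 0 else m i with hm'
  obtain ⟨T, hT1, hT2⟩ := PlaceX_T e (cnd m') he
  obtain ⟨p, s, -, hps⟩ := comb_bal e he m'
  set X : ℕ → ℕ := fun ρ => ∑ i, Nr e (m' i) (p i) (s i) ρ with hX
  have hXT : ∀ ρ < e, X ρ ≤ T := by
    intro ρ hρ
    have h1 : e * X ρ ≤ cnd m' + (e - 1) ^ 2 := (hps ρ hρ).2
    exact Nat.le_of_mul_le_mul_left (le_trans h1 hT1) he
  have hXsum : ∑ ρ ∈ Finset.range e, X ρ = cnd m' := by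
    rw [hX]
    simp only
    rw [Finset.sum_comm]
    exact Finset.sum_congr rfl fun i _ => Nr_sum e he _ _ _
  have hXG : ∀ ρ, ∑ i ∈ Gᶜ, NO e (m i) (p i) (some (s i)) ρ = X ρ := by
    intro ρ
    have h1 : X ρ = ∑ i ∈ G, NO e (m' i) (p i) (some (s i)) ρ
        + ∑ i ∈ Gᶜ, NO e (m' i) (p i) (some (s i)) ρ := by
      rw [Finset.sum_add_sum_compl]
      rfl
    rw [h1]
    have h2 : ∑ i ∈ G, NO e (m' i) (p i) (some (s i)) ρ = 0 := by
      apply Finset.sum_eq_zero
      intro i hi
      rw [hm']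
      simp only [if_pos hi]
      exact PlaceX_NO_zero _ _ _ _
    rw [h2, zero_add]
    refine Finset.sum_congr rfl fun i hi => ?_
    rw [hm']
    simp only [if_neg (Finset.mem_compl.1 hi)]
  -- the groups give constants
  choose A hA using fun v : Fin U => group_const e he (fun x => m (g v x)) (m (g v ⟨0, he⟩) % (2 * e))
    (fun x => hgf v x ⟨0, he⟩)
  have hAsum : ∀ ρ < e, ∑ a : Fin U × Fin e, NO e (m (γ a)) ((a.2 : ℕ) : ℤ) (some true) ρ
      = ∑ v, A v := by
    intro ρ hρ
    rw [Fintype.sum_prod_type]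
    exact Finset.sum_congr rfl fun v _ => hA v ρ hρ
  set N : ℕ → ℕ := fun ρ => ∑ v, A v + X ρ with hN
  have hNsum : ∑ ρ ∈ Finset.range e, N ρ = ∑ i, (m i + 1).choose 2 := by
    rw [PlaceX_split γ hginj (fun i => (m i + 1).choose 2)]
    rw [hN, Finset.sum_add_distrib, hXsum]
    congr 1
    · rw [← Finset.sum_congr rfl fun ρ hρ => hAsum ρ (Finset.mem_range.1 hρ), Finset.sum_comm]
      exact Finset.sum_congr rfl fun a _ => sum_NO e he _ _ _
    · unfold cnd
      rw [← Finset.sum_add_sum_compl G]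
      have h2 : ∑ i ∈ G, (m' i + 1).choose 2 = 0 := by
        apply Finset.sum_eq_zero
        intro i hi
        rw [hm']
        simp only [if_pos hi]
        rfl
      rw [h2, zero_add]
      refine Finset.sum_congr rfl fun i hi => ?_
      have hi' : i ∉ G := Finset.mem_compl.1 hi
      rw [hm']
      simp only [if_neg hi']
  obtain ⟨u, hu1, hu2⟩ := exists_flow e he N Q (∑ v, A v + T) y U
    (fun x hx => by
      have := hXT x hx
      show ∑ v, A v + X x ≤ ∑ v, A v + T
      omega) hy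
    (by
      have h1 : ∑ x ∈ Finset.range e, (∑ v, A v + T - N x) + ∑ x ∈ Finset.range e, X x = e * T := by
        rw [← Finset.sum_add_distrib]
        rw [Finset.sum_congr rfl (g := fun _ => T) (fun ρ hρ => by
          have := hXT ρ (Finset.mem_range.1 hρ)
          show ∑ v, A v + T - (∑ v, A v + X ρ) + X ρ = T
          omega)]
        rw [Finset.sum_const, Finset.card_range, smul_eq_mul]
      have h2 : ∑ x ∈ Finset.range e, (Q x - y) + e * y = e * y + c := by
        rw [← hc]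
        have : e * y = ∑ x ∈ Finset.range e, y := by
          rw [Finset.sum_const, Finset.card_range, smul_eq_mul]
        rw [this, ← Finset.sum_add_distrib]
        refine Finset.sum_congr rfl fun x hx => ?_
        have := hy x (Finset.mem_range.1 hx)
        omega
      omega)
    (by rw [hNsum]; exact hT)
  refine ⟨Function.extend γ (fun a => ((a.2 : ℕ) : ℤ)) p,
    Function.extend γ (fun a => if a.1.val < u a.2 then none else some true)
      (fun i => some (s i)), fun ρ hρ => ?_⟩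
  rw [PlaceX_split γ hginj]
  have h1 : ∑ a, NO e (m (γ a)) (Function.extend γ (fun a => ((a.2 : ℕ) : ℤ)) p (γ a))
      (Function.extend γ (fun a => if a.1.val < u a.2 then none else some true)
      (fun i => some (s i)) (γ a)) ρ
      = ∑ a : Fin U × Fin e, NO e (m (g a.1 a.2)) ((a.2 : ℕ) : ℤ)
        (if a.1.val < u a.2 then none else some true) ρ := by
    refine Finset.sum_congr rfl fun a _ => ?_
    rw [hginj.extend_apply, hginj.extend_apply]
  have h2 : ∑ i ∈ Gᶜ, NO e (m i) (Function.extend γ (fun a => ((a.2 : ℕ) : ℤ)) p i)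
      (Function.extend γ (fun a => if a.1.val < u a.2 then none else some true)
      (fun i => some (s i)) i) ρ = X ρ := by
    rw [← hXG]
    refine Finset.sum_congr rfl fun i hi => ?_
    have hi' : ¬ ∃ a, γ a = i := by
      rintro ⟨a, rfl⟩
      exact (Finset.mem_compl.1 hi) (Finset.mem_map.2 ⟨a, Finset.mem_univ _, rfl⟩)
    rw [Function.extend_apply' _ _ _ hi', Function.extend_apply' _ _ _ hi']
  rw [h1, h2]
  have h3 := PlaceX_move e he U (fun v x => m (g v x)) (fun v x => hm1 (v, x)) u hu1 ρ hρ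
  have h4 := hAsum ρ hρ
  have h5 := hu2 ρ hρ
  have h6 : N ρ = ∑ v, A v + X ρ := rfl
  rw [h6] at h5
  have h7 : ((∑ a : Fin U × Fin e, NO e (m (g a.1 a.2)) ((a.2 : ℕ) : ℤ) (some true) ρ : ℕ) : ℤ)
      = ((∑ v, A v : ℕ) : ℤ) := by
    exact_mod_cast h4
  rw [h7] at h3
  omega

end ShghT
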