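import Pool.Agent.ShghX.SpecialX
import Pool.Agent.ShghX.PlaceX
import Pool.Agent.ShghX.Place3
import Pool.Agent.ShghW.MainW
import Pool.Agent.ShghT.MainV

/-!
# Theorem X
-/

namespace ShghT

open MvPolynomial

/-- The condition on `e`, `χ` and the number `n` of the other points of positive multiplicity. -/
def HypX (e : ℕ) (χ : ℤ) (n : ℕ) : Prop :=
  e ≤ 2 ∨ 2 * (e : ℤ) ^ 2 ≤ |χ| ∨ 2 * e ^ 3 ≤ n ∨ (e = 3 ∧ (χ ≠ 0 ∨ n ≠ 1))

/-- The demand can be covered. -/
theorem cover_X {δ : ℕ} {M : Fin 9 → ℕ} {e : ℕ} (hstd : Std δ M e) (he : 0 < e) {r : ℕ}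
    (m : Fin r → ℕ)
    (hyp : e ≤ 2 ∨ 2 * e ^ 3 ≤ (Finset.univ.filter fun i => 1 ≤ m i).card ∨
      (e = 3 ∧ (∑ x ∈ Finset.range e, Qd δ M e x < ∑ i, (m i + 1).choose 2 ∨
        2 ≤ (Finset.univ.filter fun i => 1 ≤ m i).card)))
    (hT : ∑ x ∈ Finset.range e, Qd δ M e x ≤ ∑ i, (m i + 1).choose 2) :
    ∃ (p : Fin r → ℤ) (o : Fin r → Option Bool),
      (∀ i, 0 ≤ circO e (p i) (o i) ∧ circO e (p i) (o i) < 4 * (e : ℤ)) ∧
      ∀ ρ < e, Dg δ M e ρ + 1 ≤ ∑ i, NO e (m i) (p i) (o i) ρ ∨
        ∃ σ < e, Tie δ M e σ ρ ∧ Dg δ M e ρ ≤ ∑ i, NO e (m i) (p i) (o i) ρ ∧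
          Dg δ M e σ + 1 ≤ ∑ i, NO e (m i) (p i) (o i) σ := by
  rcases hyp with h | h | ⟨rfl, h⟩
  · obtain ⟨p, o, hpo, hN⟩ := cover_W hstd he m (Or.inl h) hT
    exact ⟨p, o, hpo, dem_of_Qd _ hN⟩
  · -- many points
    have hM0 : ∀ l, M 8 ≤ M l := fun l => hstd.anti (Fin.le_last l)
    have hstd' : ∀ i j l, i ≠ j → i ≠ l → j ≠ l → M i + M j + M l ≤ δ := by
      intro i j l hij hil hjl
      have key : ∀ i j l : Fin 9, i < j → j < l → M i + M j + M l ≤ δ := by
        intro i j l h1 h2
        have a0 := hstd.anti (Fin.zero_le i)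
        have a1 : M j ≤ M 1 := hstd.anti (by
          rw [Fin.le_def]
          rw [Fin.lt_def] at h1
          simp only [Fin.val_one]
          omega)
        have a2 : M l ≤ M 2 := hstd.anti (by
          rw [Fin.le_def]
          rw [Fin.lt_def] at h1 h2
          have : (2 : Fin 9).val = 2 := rfl
          omega)
        have := hstd.std
        omega
      rcases lt_trichotomy i j with h1 | h1 | h1
      · rcases lt_trichotomy j l with h2 | h2 | h2
        · exact key i j l h1 h2
        · exact absurd h2 hjl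
        · rcases lt_trichotomy i l with h3 | h3 | h3
          · have := key i l j h3 h2
            omega
          · exact absurd h3 hil
          · have := key l i j h3 h1
            omega
      · exact absurd h1 hij
      · rcases lt_trichotomy i l with h2 | h2 | h2
        · have := key j i l h1 h2
          omega
        · exact absurd h2 hil
        · rcases lt_trichotomy j l with h3 | h3 | h3
          · have := key j l i h3 h2
            omega
          · exact absurd h3 hjl
          · have := key l j i h3 h1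
            omega
    obtain ⟨h3y, c, hc1, hc2, hc3, hc4⟩ := arith δ M hstd' (M 8) hM0 8 rfl e hstd.deg
    have hsum := sum_Qd hstd he
    have hc : ∑ x ∈ Finset.range e, Qd δ M e x = e * M 8 + c := by
      rw [hc2] at hsum
      omega
    obtain ⟨p, o, hpo, hN⟩ := placeX e he _ (M 8) c (fun x hx => Qd_ge hstd hx) hc hc3 m h hT
    exact ⟨p, o, hpo, dem_of_Qd _ hN⟩
  · have hends := Qd_ends hstd (by omega)
    have h2 := hends.2 le_rfl
    have h1 := hends.1
    simp only [Nat.add_one_sub_one] at h1 h2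
    rw [Finset.sum_range_succ, Finset.sum_range_succ, Finset.sum_range_one] at h hT
    obtain ⟨p, o, hpo, hN⟩ := place3 (Qd δ M 3) h2.1 h2.2 h1.1 h1.2 m hT h
    refine ⟨p, o, hpo, ?_⟩
    rcases hN with hN | hN
    · exact dem_of_Qd _ hN
    · exact dem_of_Qd_rev _ hN

theorem card_append_ones {r n : ℕ} (m : Fin r → ℕ) :
    (Finset.univ.filter fun i => 1 ≤ Fin.append m (fun _ : Fin n => 1) i).card =
      (Finset.univ.filter fun i => 1 ≤ m i).card + n := by
  rw [Finset.card_filter, Finset.card_filter, Fin.sum_univ_add]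
  simp

/-- **Theorem X**, for sorted multiplicities. -/
theorem main_X {F K : Type*} [Field F] [Field K] [Algebra F K] {r : ℕ}
    (P : Fin (9 + r) → Fin 2 → K)
    (hP : AlgebraicIndependent F (fun ij : Fin (9 + r) × Fin 2 => P ij.1 ij.2))
    (δ : ℕ) (M : Fin 9 → ℕ) (m : Fin r → ℕ) (e : ℕ) (hstd : Std δ M e)
    (hstd' : ∀ i j l, i ≠ j → i ≠ l → j ≠ l → M i + M j + M l ≤ δ) (χ : ℤ)
    (h : HypX e χ (Finset.univ.filter fun i => 1 ≤ m i).card)
    (hχ : χ = ((δ + 2).choose 2 : ℤ) - ∑ l, ((M l + 1).choose 2 : ℤ) -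
      ∑ i, ((m i + 1).choose 2 : ℤ)) :
    (Module.finrank K (LS δ (Fin.append M m) P) : ℤ) = max 0 χ := by
  have : Infinite K := infinite_of_algebraicIndependent _ hP
  rcases Nat.eq_zero_or_pos e with rfl | he
  · obtain ⟨hδ, hM⟩ := std_zero hstd
    have h1 := main_E0 P hP (M 8) M hM m
    have h2 : (((3 * M 8 + 2).choose 2 : ℕ) : ℤ) - ∑ l, ((M l + 1).choose 2 : ℤ) = 1 := by
      have h3 : ∀ n : ℕ, 2 * ((n + 1).choose 2 : ℤ) = n * (n + 1) := by
        intro n
        induction n with
        | zero => simp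
        | succ n ih =>
          rw [Nat.choose_succ_succ' (n + 1) 1, Nat.choose_one_right]
          push_cast
          linarith
      have h4 := h3 (3 * M 8 + 1)
      have h5 := h3 (M 8)
      rw [Finset.sum_congr rfl (fun l _ => by rw [hM l])]
      simp only [Finset.sum_const, Finset.card_univ, Fintype.card_fin, nsmul_eq_mul]
      push_cast at h4 h5 ⊢
      nlinarith
    rw [hχ, hδ, h2]
    rw [hδ] at *
    exact h1
  · have hsum := sum_Qd hstd he
    have hlow := le_finrank_LS δ (Fin.append M m) P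
    rw [Fin.sum_univ_add] at hlow
    simp only [Fin.append_left, Fin.append_right] at hlow
    have hχ' : χ = ((∑ x ∈ Finset.range e, Qd δ M e x : ℕ) : ℤ) -
        ((∑ i, (m i + 1).choose 2 : ℕ) : ℤ) := by
      rw [hχ, ← hsum]
      push_cast
      ring
    by_cases hV : 2 * (e : ℤ) ^ 2 ≤ |χ|
    · exact main_V P hP δ M m hstd' e he hstd.deg χ hχ hV
    obtain ⟨n, hn⟩ : ∃ n, n = ∑ x ∈ Finset.range e, Qd δ M e x - ∑ i, (m i + 1).choose 2 :=
      ⟨_, rfl⟩
    have hT : ∑ x ∈ Finset.range e, Qd δ M e x ≤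
        ∑ i, (Fin.append m (fun _ : Fin n => 1) i + 1).choose 2 := by
      rw [cnd_append']
      omega
    obtain ⟨p, o, hpo, hN⟩ := cover_X hstd he (Fin.append m (fun _ : Fin n => 1)) (by
      rw [card_append_ones]
      rcases h with h | h | h | ⟨rfl, h⟩
      · exact Or.inl h
      · exact absurd h hV
      · exact Or.inr (Or.inl (by omega))
      · refine Or.inr (Or.inr ⟨rfl, ?_⟩)
        rw [cnd_append']
        by_cases hneg : ∑ x ∈ Finset.range 3, Qd δ M 3 x < ∑ i, (m i + 1).choose 2
        · exact Or.inl (by omega)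
        · refine Or.inr ?_
          have hQ2 : 2 ≤ ∑ x ∈ Finset.range 3, Qd δ M 3 x := by
            have b0 : 1 ≤ Qd δ M 3 0 := by
              rw [Qd, if_neg (by rintro ⟨-, -, h, -⟩; omega)]
              omega
            have b2 : 1 ≤ Qd δ M 3 2 := by
              rw [Qd, if_neg (by omega)]
              omega
            rw [Finset.sum_range_succ, Finset.sum_range_succ, Finset.sum_range_one]
            omega
          by_cases hc0 : (Finset.univ.filter fun i => 1 ≤ m i).card = 0
          · have h0 : ∑ i, (m i + 1).choose 2 = 0 := by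
              refine Finset.sum_eq_zero fun i _ => ?_
              rw [Finset.card_eq_zero, Finset.filter_eq_empty_iff] at hc0
              have := hc0 (Finset.mem_univ i)
              have h0 : m i = 0 := by omega
              rw [h0]
              rfl
            omega
          · have : χ = n := by omega
            rcases h with h | h <;> omega) hT
    have hup := upper_X P hP δ M m e he hstd n p o hpo hN
    omega

end ShghT
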