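import Pool.Agent.ShghC.MainC
import Pool.Agent.ShghX.BoundX

/-!
# Theorem X for prime divisors which are not standard
-/

namespace ShghT

open MvPolynomial

variable {F K : Type*} [Field F] [Field K] [Algebra F K] {s : ℕ}

/-- `f` defines a prime divisor of degree `D` with multiplicities exactly `μ i` at the points. -/
structure PrimeAt (D : ℕ) (P : Fin s → Fin 2 → K) (μ : Fin s → ℕ) (f : MvPolynomial (Fin 2) K) :
    Prop where
  deg : f.totalDegree ≤ D
  irr : ∃ T : Tri K, Irreducible (T.hg D f)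
  mem : ∀ i, f ∈ pt (P i 0) (P i 1) ^ μ i
  ex : ∀ i, f ∉ pt (P i 0) (P i 1) ^ (μ i + 1)

/-- One quadratic transformation. -/
theorem PrimeAt.step {D : ℕ} {P : Fin s → Fin 2 → K} {μ : Fin s → ℕ} {f : MvPolynomial (Fin 2) K}
    (hP : AlgebraicIndependent F (fun ij : Fin s × Fin 2 => P ij.1 ij.2))
    (h : PrimeAt D P μ f) (hD : 2 ≤ D) (b : Fin 3 → Fin s) (hb : Function.Injective b)
    (hlt : D < μ (b 0) + μ (b 1) + μ (b 2)) :
    OkC D (fun t => μ (b t)) ∧ crD D (fun t => μ (b t)) < D ∧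
      ∃ (P' : Fin s → Fin 2 → K) (f' : MvPolynomial (Fin 2) K),
        AlgebraicIndependent F (fun ij : Fin s × Fin 2 => P' ij.1 ij.2) ∧
        PrimeAt (crD D fun t => μ (b t)) P' (newM D b μ) f' ∧
        Module.finrank K (LS D μ P) =
          Module.finrank K (LS (crD D fun t => μ (b t)) (newM D b μ) P') := by
  obtain ⟨hdeg, ⟨T₀, hirr₀⟩, hmem, hex⟩ := h
  have hfLS : f ∈ LS D μ P := mem_LS.2 ⟨hdeg, hmem⟩
  have hdet := fun i j l hij hil hjl => det_gen (F := F) P hP (i := i) (j := j) (l := l) hij hil hjl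
  obtain ⟨T, hTA⟩ := exists_tri (fun t => P (b t)) (hdet (b 0) (b 1) (b 2)
    (hb.ne (by decide)) (hb.ne (by decide)) (hb.ne (by decide)))
  have hT : ∀ t, T.A t = P (b t) := fun t => congrFun hTA t
  have hirr := T₀.irreducible_hg T hdeg hirr₀
  have hadd : ∀ i j : Fin 3, i ≠ j → μ (b i) + μ (b j) ≤ D := fun i j hij =>
    mult_add_le T hD hdeg hirr (P (b i)) (P (b j)) (point_ne P hP (hb.ne hij)) (hmem _)
      (hmem _)
  have hOk : OkC D fun t => μ (b t) :=
    ⟨hadd 1 2 (by decide), hadd 0 2 (by decide), hadd 0 1 (by decide)⟩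
  have hC := inC_of_LS T P b hT hfLS
  have hC' := hC.cr hOk
  have h01 := hadd 0 1 (by decide)
  have h02 := hadd 0 2 (by decide)
  have h12 := hadd 1 2 (by decide)
  have hcrD : 1 ≤ crD D (fun t => μ (b t)) ∧ crD D (fun t => μ (b t)) < D := by
    rw [crD]
    omega
  have hnX : ∀ t, ¬ X t ∣ T.hg D f := fun t => T.not_X_dvd hD hdeg hirr t
  have hexp : ∀ t, ∃ α ∈ (T.hg D f).support, α t + μ (b t) = D := by
    intro t
    have h1 := hex (b t)
    rw [← hT t, T.mem_pt_vertex hdeg] at h1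
    push Not at h1
    obtain ⟨α, hα, hα2⟩ := h1
    exact ⟨α, hα, le_antisymm (hC.exp α hα t) (by omega)⟩
  have hnX' : ∀ t, ¬ X t ∣ cr D (fun t => μ (b t)) (T.hg D f) := fun t =>
    not_X_dvd_cr hC t (hexp t)
  have hirr' := irreducible_cr hOk hcrD.1 hC hirr hnX hnX'
  have hOkP : ∀ l, (∀ t, l ≠ b t) → T.Ok (P l) := fun l hl => T.ok_gen P hP b hb hT l hl
  have hf'LS := tf_mem_LS T P b hb hT hOkP hOk hfLS
  have hhg : T.hg (crD D fun t => μ (b t)) (T.tf D (fun t => μ (b t)) f) =
      cr D (fun t => μ (b t)) (T.hg D f) := by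
    rw [Tri.tf, T.hg_ev hC'.hom]
  refine ⟨hOk, hcrD.2, newP T b P, T.tf D (fun t => μ (b t)) f, algInd_newP T P hP b hb hT,
    ⟨(mem_LS.1 hf'LS).1, ⟨T, by rw [hhg]; exact hirr'⟩, (mem_LS.1 hf'LS).2, ?_⟩,
    finrank_newM T P b hb hT hOkP hOk⟩
  intro l hl
  by_cases hl' : ∃ t, b t = l
  · obtain ⟨t, rfl⟩ := hl'
    rw [newP_base, newM_base b hb, ← hT t, T.mem_pt_vertex (mem_LS.1 hf'LS).1, hhg] at hl
    obtain ⟨α, hα, hα2⟩ := exact_cr hOk hC t (hnX t)
    have := hl α hα
    omega
  · push Not at hl'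
    have hl2 : ∀ t, l ≠ b t := fun t ht => hl' t ht.symm
    rw [newP_other T P b hl2, newM_other b μ hl2] at hl
    have h1 := T.tf_mem_pt (mem_LS.1 hf'LS).1 (inC_of_LS' T P b hb hT hf'LS)
      (hOkP l hl2) hl
    rw [tf_tf T hOk hdeg hC] at h1
    exact hex l h1

/-- The sum over nine points, the first three separately. -/
private theorem sum_nine (f : Fin 9 → ℤ) : ∑ l, f l = f 0 + f 1 + f 2 + f 3 + f 4 + f 5 + f 6 +
    f 7 + f 8 := by
  rw [Fin.sum_univ_succ, Fin.sum_univ_eight]
  have e1 : (Fin.succ 0 : Fin 9) = 1 := rfl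
  have e2 : (Fin.succ 1 : Fin 9) = 2 := rfl
  have e3 : (Fin.succ 2 : Fin 9) = 3 := rfl
  have e4 : (Fin.succ 3 : Fin 9) = 4 := rfl
  have e5 : (Fin.succ 4 : Fin 9) = 5 := rfl
  have e6 : (Fin.succ 5 : Fin 9) = 6 := rfl
  have e7 : (Fin.succ 6 : Fin 9) = 7 := rfl
  have e8 : (Fin.succ 7 : Fin 9) = 8 := rfl
  rw [e1, e2, e3, e4, e5, e6, e7, e8]
  ring

/-- Reduction of prime divisors to standard classes with respect to nine given points. The goal may
depend on `-K_9 · D`, on `χ`, on the number of further points and on the dimension. -/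
theorem prime_ind (Goal : ℤ → ℤ → ℕ → ℕ → Prop) (hline : Goal 1 1 0 1)
    (hstd : ∀ (D : ℕ) (P : Fin s → Fin 2 → K),
      AlgebraicIndependent F (fun ij : Fin s × Fin 2 => P ij.1 ij.2) → ∀ (μ : Fin s → ℕ)
      (c : Fin 9 → Fin s), Function.Injective c →
      (∀ i j l, i ≠ j → i ≠ l → j ≠ l → μ (c i) + μ (c j) + μ (c l) ≤ D) →
      ∀ f : MvPolynomial (Fin 2) K, PrimeAt D P μ f →
      Goal (3 * D - ∑ l, (μ (c l) : ℤ))
        (((D + 2).choose 2 : ℤ) - ∑ i, ((μ i + 1).choose 2 : ℤ)) (numX c μ)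
        (Module.finrank K (LS D μ P))) : ∀ (D : ℕ) (P : Fin s → Fin 2 → K),
    AlgebraicIndependent F (fun ij : Fin s × Fin 2 => P ij.1 ij.2) → ∀ (μ : Fin s → ℕ)
    (c : Fin 9 → Fin s), Function.Injective c →
    ∀ f : MvPolynomial (Fin 2) K, PrimeAt D P μ f →
    Goal (3 * D - ∑ l, (μ (c l) : ℤ))
      (((D + 2).choose 2 : ℤ) - ∑ i, ((μ i + 1).choose 2 : ℤ)) (numX c μ)
      (Module.finrank K (LS D μ P)) := by
  intro D
  induction D using Nat.strong_induction_on with
  | _ D ih =>
  intro P hP μ c hc f hf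
  obtain ⟨hdeg, hirr₀, hmem, hex⟩ := id hf
  have hfLS : f ∈ LS D μ P := mem_LS.2 ⟨hdeg, hmem⟩
  have hf0 : f ≠ 0 := by
    rintro rfl
    exact hex (c 0) (Ideal.zero_mem _)
  -- sort the nine points
  wlog hanti : Antitone fun l => μ (c l) generalizing c
  · let σ : Equiv.Perm (Fin 9) := Fin.revPerm.trans (Tuple.sort fun l => μ (c l))
    have h := this (fun l => c (σ l)) (hc.comp σ.injective) (by
      intro i j hij
      exact Tuple.monotone_sort (fun l => μ (c l)) (Fin.rev_le_rev.2 hij))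
    have hr : numX (fun l => c (σ l)) μ = numX c μ := by
      rw [numX, numX]
      congr 1
      refine Finset.filter_congr fun i _ => and_congr_left fun _ => ?_
      exact ⟨fun h l => by simpa using h (σ.symm l), fun h l => h (σ l)⟩
    rw [hr, Equiv.sum_comp σ fun l => (μ (c l) : ℤ)] at h
    exact h
  have anti : ∀ i j : Fin 9, i ≤ j → μ (c j) ≤ μ (c i) := fun i j hij => hanti hij
  have h0l : ∀ l, μ (c l) ≤ μ (c 0) := fun l => anti 0 l (Fin.zero_le l)
  have h1l : ∀ l : Fin 9, l ≠ 0 → μ (c l) ≤ μ (c 1) := fun l hl => anti 1 l (by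
    rw [Fin.le_def]
    have : l.val ≠ 0 := fun h => hl (Fin.ext h)
    simp only [Fin.val_one]
    omega)
  have h2l : ∀ l : Fin 9, l ≠ 0 → l ≠ 1 → μ (c l) ≤ μ (c 2) := fun l hl hl' => anti 2 l (by
    rw [Fin.le_def]
    have h3 : l.val ≠ 0 := fun h => hl (Fin.ext h)
    have h4 : l.val ≠ 1 := fun h => hl' (Fin.ext h)
    have h5 : (2 : Fin 9).val = 2 := rfl
    omega)
  have hdet := fun i j l hij hil hjl => det_gen (F := F) P hP (i := i) (j := j) (l := l) hij hil hjl
  rcases Nat.lt_or_ge D (μ (c 0) + μ (c 1) + μ (c 2)) with hlt | hge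
  · rcases Nat.lt_or_ge D 2 with hD | hD
    · -- lines
      have hle : ∀ i, μ i ≤ D := fun i =>
        (mult_le_totalDegree (P i) (μ i) f hf0 (hmem i)).trans hdeg
      have hD1 : D = 1 := by
        have h0 := hle (c 0)
        have h1 := hle (c 1)
        have h2 := hle (c 2)
        omega
      subst hD1
      have h0 := hle (c 0)
      have h1 := hle (c 1)
      have h2 := hle (c 2)
      have h01 := h0l 1
      have h12 := anti 1 2 (by decide)
      have hne : c 0 ≠ c 1 := hc.ne (by decide)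
      obtain ⟨hr, hi, hj, hz⟩ := line_case P hdet μ f hfLS hf0 (c 0) (c 1) hne
        (point_ne P hP hne) (by omega) (by omega)
      have hsum : ∑ i, ((μ i + 1).choose 2 : ℤ) = 2 := by
        rw [← Finset.add_sum_erase _ _ (Finset.mem_univ (c 0)),
          ← Finset.add_sum_erase _ _ (Finset.mem_erase.2 ⟨hne.symm, Finset.mem_univ (c 1)⟩),
          Finset.sum_eq_zero, hi, hj]
        · norm_num
        · intro i hi
          rw [Finset.mem_erase, Finset.mem_erase] at hi
          rw [hz i hi.2.1 hi.1]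
          norm_num
      have hz9 : ∀ l : Fin 9, l ≠ 0 → l ≠ 1 → μ (c l) = 0 := fun l h0 h1 =>
        hz _ (hc.ne h0) (hc.ne h1)
      have hE : (3 * ((1 : ℕ) : ℤ) - ∑ l, (μ (c l) : ℤ)) = 1 := by
        rw [sum_nine, hi, hj, hz9 2 (by decide) (by decide), hz9 3 (by decide) (by decide),
          hz9 4 (by decide) (by decide), hz9 5 (by decide) (by decide),
          hz9 6 (by decide) (by decide), hz9 7 (by decide) (by decide),
          hz9 8 (by decide) (by decide)]
        norm_num
      have hnum : numX c μ = 0 := by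
        rw [numX, Finset.card_eq_zero, Finset.filter_eq_empty_iff]
        rintro i - ⟨h1, h2⟩
        have := hz i (h1 0) (h1 1)
        omega
      rw [hE, hnum, hr, hsum]
      have h1 : (((1 + 2).choose 2 : ℕ) : ℤ) - 2 = 1 := by norm_num [Nat.choose]
      rw [h1]
      exact hline
    · -- the quadratic transformation
      set b : Fin 3 → Fin s := ![c 0, c 1, c 2] with hbdef
      have hb : Function.Injective b := by
        have h01 : c 0 ≠ c 1 := hc.ne (by decide)
        have h02 : c 0 ≠ c 2 := hc.ne (by decide)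
        have h12 : c 1 ≠ c 2 := hc.ne (by decide)
        intro i j hij
        fin_cases i <;> fin_cases j <;> simp_all
      obtain ⟨hOk, hlt', P', f', hP', hf', hfin⟩ := hf.step hP hD b hb hlt
      have hOk' : μ (c 1) + μ (c 2) ≤ D ∧ μ (c 0) + μ (c 2) ≤ D ∧ μ (c 0) + μ (c 1) ≤ D := hOk
      have hcrD : (crD D (fun t => μ (b t)) : ℤ) = 2 * D - (μ (c 0) + μ (c 1) + μ (c 2)) := by
        have h1 : crD D (fun t => μ (b t)) = 2 * D - (μ (c 0) + μ (c 1) + μ (c 2)) := rfl
        rw [h1]
        omega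
      have hother : ∀ l : Fin 9, l ≠ 0 → l ≠ 1 → l ≠ 2 → newM D b μ (c l) = μ (c l) := by
        intro l h0 h1 h2
        refine newM_other b μ fun t ht => ?_
        fin_cases t
        · exact h0 (hc ht)
        · exact h1 (hc ht)
        · exact h2 (hc ht)
      have hn0 : (newM D b μ (c 0) : ℤ) = D - (μ (c 1) + μ (c 2)) := by
        have h1 : newM D b μ (c 0) = D - (μ (c 1) + μ (c 2)) := newM_base b hb μ 0
        rw [h1]
        omega
      have hn1 : (newM D b μ (c 1) : ℤ) = D - (μ (c 0) + μ (c 2)) := by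
        have h1 : newM D b μ (c 1) = D - (μ (c 0) + μ (c 2)) := newM_base b hb μ 1
        rw [h1]
        omega
      have hn2 : (newM D b μ (c 2) : ℤ) = D - (μ (c 0) + μ (c 1)) := by
        have h1 : newM D b μ (c 2) = D - (μ (c 0) + μ (c 1)) := newM_base b hb μ 2
        rw [h1]
        omega
      have hE : (3 * (crD D (fun t => μ (b t)) : ℤ) - ∑ l, (newM D b μ (c l) : ℤ)) =
          3 * D - ∑ l, (μ (c l) : ℤ) := by
        rw [sum_nine, sum_nine, hcrD, hn0, hn1, hn2, hother 3 (by decide) (by decide) (by decide),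
          hother 4 (by decide) (by decide) (by decide), hother 5 (by decide) (by decide) (by decide),
          hother 6 (by decide) (by decide) (by decide), hother 7 (by decide) (by decide) (by decide),
          hother 8 (by decide) (by decide) (by decide)]
        ring
      have hnum : numX c (newM D b μ) = numX c μ := by
        rw [numX, numX]
        congr 1
        refine Finset.filter_congr fun i _ => and_congr_right fun hi => ?_
        rw [newM_other b μ fun t ht => ?_]
        fin_cases t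
        · exact hi 0 ht
        · exact hi 1 ht
        · exact hi 2 ht
      have hchi := chi_newM D b hb μ hOk
      have h := ih _ hlt' P' hP' (newM D b μ) c hc f' hf'
      rw [hE, hchi, hnum, ← hfin] at h
      exact h
  · -- standard
    refine hstd D P hP μ c hc ?_ f hf
    intro i j l hij hil hjl
    have key : ∀ i j l : Fin 9, i < j → j < l → μ (c i) + μ (c j) + μ (c l) ≤ D := by
      intro i j l h1 h2
      have e0 := h0l i
      have e1 := h1l j (by rintro rfl; exact absurd h1 (by simp))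
      have e2 := h2l l (by rintro rfl; exact absurd h2 (by simp)) (by
        rintro rfl
        rw [Fin.lt_def] at h1 h2
        simp only [Fin.val_one] at h2
        omega)
      omega
    rcases lt_trichotomy i j with h1 | h1 | h1
    · rcases lt_trichotomy j l with h2 | h2 | h2
      · exact key i j l h1 h2
      · exact absurd h2 hjl
      · rcases lt_trichotomy i l with h3 | h3 | h3
        · have := key i l j h3 h2
          omega
        · exact absurd h3 hil
        · have := key l i j h3 h1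
          omega
    · exact absurd h1 hij
    · rcases lt_trichotomy i l with h2 | h2 | h2
      · have := key j i l h1 h2
        omega
      · exact absurd h2 hil
      · rcases lt_trichotomy j l with h3 | h3 | h3
        · have := key j l i h3 h2
          omega
        · exact absurd h3 hjl
        · have := key l j i h3 h1
          omega

theorem PrimeAt.pos {D : ℕ} {P : Fin s → Fin 2 → K} {μ : Fin s → ℕ} {f : MvPolynomial (Fin 2) K}
    (h : PrimeAt D P μ f) (i : Fin s) : 1 ≤ Module.finrank K (LS D μ P) := by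
  have hf0 : f ≠ 0 := by
    rintro rfl
    exact h.ex i (Ideal.zero_mem _)
  have : Nontrivial (LS D μ P) := ⟨⟨⟨f, mem_LS.2 ⟨h.deg, h.mem⟩⟩, 0,
    fun h => hf0 (congrArg Subtype.val h)⟩⟩
  exact Module.finrank_pos

/-- Prime divisors, for an arbitrary choice of nine of the points: `h¹ = 0` under `HypZ`, and
`h¹ ≤ 2 e²` always. -/
theorem prime_X (D : ℕ) (P : Fin s → Fin 2 → K)
    (hP : AlgebraicIndependent F (fun ij : Fin s × Fin 2 => P ij.1 ij.2)) (μ : Fin s → ℕ)
    (c : Fin 9 → Fin s) (hc : Function.Injective c) (f : MvPolynomial (Fin 2) K)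
    (hf : PrimeAt D P μ f) :
    (HypZ (3 * D - ∑ l, (μ (c l) : ℤ))
        (((D + 2).choose 2 : ℤ) - ∑ i, ((μ i + 1).choose 2 : ℤ)) (numX c μ) →
      (Module.finrank K (LS D μ P) : ℤ) =
        ((D + 2).choose 2 : ℤ) - ∑ i, ((μ i + 1).choose 2 : ℤ)) ∧
    (Module.finrank K (LS D μ P) : ℤ) ≤
      (((D + 2).choose 2 : ℤ) - ∑ i, ((μ i + 1).choose 2 : ℤ)) +
        2 * (3 * (D : ℤ) - ∑ l, (μ (c l) : ℤ)) ^ 2 := by
  refine prime_ind (F := F) (s := s) (fun E χ n h => (HypZ E χ n → (h : ℤ) = χ) ∧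
    (h : ℤ) ≤ χ + 2 * E ^ 2) ⟨fun _ => by norm_num, by norm_num⟩ ?_ D P hP μ c hc f hf
  intro D P hP μ c hc hstd f hf
  have hpos := hf.pos (c 0)
  refine ⟨fun h => ?_, ?_⟩
  · have h1 := std_X P hP D μ c hc hstd h
    have h3 : (1 : ℤ) ≤ max 0 (((D + 2).choose 2 : ℤ) - ∑ i, ((μ i + 1).choose 2 : ℤ)) := by
      rw [← h1]
      exact_mod_cast hpos
    rw [h1]
    rcases le_total 0 (((D + 2).choose 2 : ℤ) - ∑ i, ((μ i + 1).choose 2 : ℤ)) with h4 | h4
    · exact max_eq_right h4
    · rw [max_eq_left h4] at h3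
      omega
  · by_cases h : -(2 * (3 * (D : ℤ) - ∑ l, (μ (c l) : ℤ)) ^ 2) ≤
        ((D + 2).choose 2 : ℤ) - ∑ i, ((μ i + 1).choose 2 : ℤ)
    · exact std_B P hP D μ c hc hstd h
    · push Not at h
      have h1 := std_X P hP D μ c hc hstd (Or.inr (Or.inl (by
        rw [abs_of_nonpos (by nlinarith [sq_nonneg (3 * (D : ℤ) - ∑ l, (μ (c l) : ℤ))])]
        linarith)))
      have h3 : (1 : ℤ) ≤ max 0 (((D + 2).choose 2 : ℤ) - ∑ i, ((μ i + 1).choose 2 : ℤ)) := by
        rw [← h1]
        exact_mod_cast hpos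
      rw [max_eq_left (by nlinarith [sq_nonneg (3 * (D : ℤ) - ∑ l, (μ (c l) : ℤ))])] at h3
      omega

end ShghT
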