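import Pool.Agent.ShghW.SpecialW

/-!
# No curves through the special points: a more symmetric form

As `special_emptyW`, `upper_W`, but of two tied columns either one may have the smaller demand.
-/

namespace ShghT

open MvPolynomial

variable {k : Type*} [Field k]

/-- No curve through the special points. -/
theorem special_emptyX [Infinite k] {e : ℕ} (he : 0 < e) (d : ℕ) (M : Fin 9 → ℕ)
    (hstd : Std d M e)
    (a : Fin 9 → kˣ) (ha : Function.Injective a) (ν : kˣ) (hν : (ν : k) * ∏ l, (-(a l : k)) = 1)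
    (α β δ : PowerSeries k) (hα : PowerSeries.constantCoeff α = 0)
    (hβ : PowerSeries.constantCoeff β = -1) (hδ : PowerSeries.constantCoeff δ = -1)
    (hrel : iota α * x3 k (4 * e) 0 ^ 3 + iota β * x3 k (4 * e) 1 ^ 3 +
      iota δ * x3 k (4 * e) 2 ^ 3 + x3 k (4 * e) 0 * x3 k (4 * e) 1 * x3 k (4 * e) 2 = 0)
    {r : ℕ} (m : Fin r → ℕ) (p : Fin r → ℤ) (o : Fin r → Option Bool)
    (hc : ∀ i, 0 ≤ circO e (p i) (o i) ∧ circO e (p i) (o i) < 4 * (e : ℤ))
    (t : Fin r → kˣ)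
    (hdist : ∀ i i' (l l' : ℤ), l ∈ Finset.Icc (p i - (m i : ℤ)) (p i + m i) →
      l' ∈ Finset.Icc (p i' - (m i' : ℤ)) (p i' + m i') →
      (ν : k) ^ (l / e) * t i = (ν : k) ^ (l' / e) * t i' → i = i' ∧ l / e = l' / e)
    (hN : ∀ ρ < e, Dg d M e ρ + 1 ≤ ∑ i, NO e (m i) (p i) (o i) ρ ∨
      ∃ σ < e, Tie d M e σ ρ ∧ Dg d M e ρ ≤ ∑ i, NO e (m i) (p i) (o i) ρ ∧
        Dg d M e σ + 1 ≤ ∑ i, NO e (m i) (p i) (o i) σ) :
    ∃ (Q : Fin 9 → Fin 2 → KX k) (R : Fin r → Fin 2 → KX k),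
      ∀ f ∈ LS d (Fin.append M m) (Fin.append Q R), f = 0 := by
  classical
  have hN0 : 0 < 4 * e := by omega
  have hc' : ∀ i, 0 ≤ circO e (p i) (o i) ∧ circO e (p i) (o i) < ((4 * e : ℕ) : ℤ) := by
    intro i
    refine ⟨(hc i).1, ?_⟩
    have := (hc i).2
    push_cast
    exact this
  have hgood := goodB_ne_zero hN0 a hα
  have hγ : (∏ l, (-(a l : k)) ^ M l) ≠ 0 :=
    Finset.prod_ne_zero_iff.2 fun l _ => pow_ne_zero _ (neg_ne_zero.2 (a l).ne_zero)
  choose cc hcc using fun σ ρ => exists_tie he d M hstd a σ ρ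
  obtain ⟨αi, hαi, hsys⟩ := exists_alpha_sys e he (Jt d M) (∏ l, (-(a l : k)) ^ M l) (ν : k) hγ
    ν.ne_zero m p o (fun i => (t i : k)) (fun i => (t i).ne_zero) hdist (Dg d M e)
    (fun ρ _ => Dg_le d M e ρ) (Tie d M e) cc hN
    (fun i => {b : kˣ | PowerSeries.constantCoeff (Te (4 * e) (circO e (p i) (o i)) (hc' i).1
      (hc' i).2 b (goodB (4 * e) a α)) = 0}) (fun i => Te_finite _ _ _ hgood)
  have hval : ∀ i, PowerSeries.constantCoeff (Te (4 * e) (circO e (p i) (o i)) (hc' i).1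
      (hc' i).2 (αi i) (goodB (4 * e) a α)) ≠ 0 := fun i => hαi i
  set T : ∀ i, Bann k (4 * e) →+* PowerSeries (KK k) := fun i =>
    TEe (4 * e) (circO e (p i) (o i)) (hc' i).1 (hc' i).2 (αi i) with hT
  have hden : ∀ i, PowerSeries.constantCoeff (psi (T i) (MvPolynomial.C
      (3 * algebraMap (PowerSeries k) (KK k) α) * MvPolynomial.X 0 ^ 2 + MvPolynomial.X 1)) *
      PowerSeries.constantCoeff (T i (x3B k (4 * e) 1)) ^ 3 ≠ 0 := by
    intro i
    have hv2 := TEe_ne _ _ _ (hval i)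
    rw [goodB, map_mul, map_mul, map_mul, map_mul] at hv2
    have hx1 := left_ne_zero_of_mul (left_ne_zero_of_mul hv2)
    have hsm := right_ne_zero_of_mul hv2
    have hTi : ∀ b, T i (iotaB (4 * e) b) =
        PowerSeries.C (algebraMap (PowerSeries k) (KK k) b) := TEe_iota _ _ _
    exact mul_ne_zero (bp_smooth hTi hx1 α hsm) (pow_ne_zero _ hx1)
  set τ : Fin r → KK k := fun i => algebraMap (PowerSeries k) (KK k) (PowerSeries.C (t i : k)) *
    (∏ l, PowerSeries.constantCoeff (T i (thB (4 * e) (a l)))) /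
    (PowerSeries.constantCoeff (psi (T i) (MvPolynomial.C
      (3 * algebraMap (PowerSeries k) (KK k) α) * MvPolynomial.X 0 ^ 2 + MvPolynomial.X 1)) *
      PowerSeries.constantCoeff (T i (x3B k (4 * e) 1)) ^ 3) with hτ
  set PQ : Fin 9 → Fin 2 → Polynomial (KK k) := fun l i =>
    Polynomial.C (bp (TB (4 * e) (a l)) i) with hPQ
  set PR : Fin r → Fin 2 → Polynomial (KK k) := fun i =>
    ![Polynomial.C (bp (T i) 0) + Polynomial.C (τ i) * Polynomial.X, Polynomial.C (bp (T i) 1)]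
    with hPR
  refine ⟨fun l i => algebraMap (Polynomial (KK k)) (KX k) (PQ l i),
    fun i j => algebraMap (Polynomial (KK k)) (KX k) (PR i j), ?_⟩
  intro f hf
  rw [mem_LS_append] at hf
  obtain ⟨hfd, hfQ, hfR⟩ := hf
  by_contra hf0
  obtain ⟨F, hF0, hFd, hFZ, hFμ⟩ := clear_xi (Fin.append PQ PR) d
    (Fin.append M m) ∅ f hf0 hfd (by simp) (by
      intro i
      refine Fin.addCases (fun i => ?_) (fun i => ?_) i
      · simpa using hfQ i
      · simpa using hfR i)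
  have hFb : ∀ l i, F.coeff l ∈ pt (bp (TB (4 * e) (a i)) 0) (bp (TB (4 * e) (a i)) 1) ^
      (M i) := by
    intro l i
    refine coeff_mem_pt _ _ _ F ?_ l
    have h := hFμ (Fin.castAdd r i)
    rw [Fin.append_left, Fin.append_left, hPQ] at h
    simpa only [Polynomial.map_C] using h
  have hFe : ∀ i, F ∈ (Ideal.span {Polynomial.C (X 0) - (Polynomial.C (C (bp (T i) 0)) +
      Polynomial.C (C (τ i)) * Polynomial.X),
      Polynomial.C (X 1) - Polynomial.C (C (bp (T i) 1))} :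
      Ideal (Polynomial (MvPolynomial (Fin 2) (KK k)))) ^ m i := by
    intro i
    have h := hFμ (Fin.natAdd 9 i)
    rw [Fin.append_right, Fin.append_right, hPR] at h
    simpa only [Polynomial.map_C, Polynomial.map_add, Polynomial.map_mul, Polynomial.map_X,
      Matrix.cons_val_zero, Matrix.cons_val_one] using h
  obtain ⟨w, H, hHth, ⟨j0, hj0, hHj0⟩, hHf, hHc⟩ := core_W he d M hstd a ha ν hν α β δ hα hβ hδ
    hrel m (fun i => circO e (p i) (o i)) hc' αi t hval τ (by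
      intro i
      rw [hτ]
      exact div_mul_cancel₀ _ (hden i)) F hF0 hFd hFb hFe
  set H' : ℕ → Lam k := fun j => if j ≤ w then H j else 0 with hH'
  have hlev : LevOK e d M a H' := by
    intro j hj
    by_cases hjw : j ≤ w
    · have h1 : H' j = H j := by rw [hH']; exact if_pos hjw
      rw [h1] at hj ⊢
      exact hHf j hjw hj
    · have h1 : H' j = 0 := by rw [hH']; exact if_neg hjw
      exact absurd h1 hj
  have hth : ∀ j ≤ Jt d M, IsTh (4 * e) e ((∏ l, (-(a l : k)) ^ M l) * (ν : k) ^ j) (H' j) := by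
    intro j _
    by_cases hjw : j ≤ w
    · have h1 : H' j = H j := by rw [hH']; exact if_pos hjw
      rw [h1]
      exact hHth j hjw
    · have h1 : H' j = 0 := by rw [hH']; exact if_neg hjw
      rw [h1]
      exact IsTh.zero _ _ _
  have hcond : ∀ i a b, a + b < m i → ∀ n : ℕ, ∑ j ∈ Finset.range (Jt d M + 1),
      (t i : k) ^ j * (j.choose b : k) * (∑ᶠ l : ℤ, cf (H' j) (n - circO e (p i) (o i) * l) l *
        (αi i : k) ^ l * ((Ring.choose l a : ℤ) : k)) = 0 := by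
    intro i a1 b1 hab n
    have hz : ∀ j, H' j = 0 → (t i : k) ^ j * (j.choose b1 : k) *
        (∑ᶠ l : ℤ, cf (H' j) (n - circO e (p i) (o i) * l) l *
        (αi i : k) ^ l * ((Ring.choose l a1 : ℤ) : k)) = 0 := by
      intro j hj
      rw [hj]
      simp [cf_zero]
    have h1 : ∑ j ∈ Finset.range (Jt d M + 1), (t i : k) ^ j * (j.choose b1 : k) *
        (∑ᶠ l : ℤ, cf (H' j) (n - circO e (p i) (o i) * l) l *
        (αi i : k) ^ l * ((Ring.choose l a1 : ℤ) : k)) =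
        ∑ j ∈ Finset.range (Jt d M + w + 1), (t i : k) ^ j * (j.choose b1 : k) *
        (∑ᶠ l : ℤ, cf (H' j) (n - circO e (p i) (o i) * l) l *
        (αi i : k) ^ l * ((Ring.choose l a1 : ℤ) : k)) := by
      refine Finset.sum_subset (fun j hj => ?_) fun j _ hj => hz j ?_
      · rw [Finset.mem_range] at hj ⊢
        omega
      · by_contra h0
        have := (hlev j h0).1
        rw [Finset.mem_range] at hj
        omega
    have h2 : ∑ j ∈ Finset.range (w + 1), (t i : k) ^ j * (j.choose b1 : k) *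
        (∑ᶠ l : ℤ, cf (H' j) (n - circO e (p i) (o i) * l) l *
        (αi i : k) ^ l * ((Ring.choose l a1 : ℤ) : k)) =
        ∑ j ∈ Finset.range (Jt d M + w + 1), (t i : k) ^ j * (j.choose b1 : k) *
        (∑ᶠ l : ℤ, cf (H' j) (n - circO e (p i) (o i) * l) l *
        (αi i : k) ^ l * ((Ring.choose l a1 : ℤ) : k)) := by
      refine Finset.sum_subset (fun j hj => ?_) fun j _ hj => hz j ?_
      · rw [Finset.mem_range] at hj ⊢
        omega
      · rw [Finset.mem_range] at hj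
        rw [hH']
        exact if_neg (by omega)
    rw [h1, ← h2, ← hHc i a1 b1 hab n]
    refine Finset.sum_congr rfl fun j hj => ?_
    have h3 : H' j = H j := by
      rw [Finset.mem_range] at hj
      rw [hH']
      exact if_pos (by omega)
    rw [h3]
  have hall := no_theta he hstd (∏ l, (-(a l : k)) ^ M l) (ν : k) hγ ν.ne_zero m p o hc
    (fun i => (αi i : k)) (fun i => (t i : k)) (fun i => (αi i).ne_zero) cc hcc hsys H' hth hlev
    hcond
  have h4 : H' j0 = H j0 := by rw [hH']; exact if_pos hj0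
  have h5 : H' j0 ≠ 0 := by rwa [h4]
  exact h5 (hall j0 (hlev j0 h5).1)

/-- The parameters, as `setup`. -/
theorem upper_X {F K : Type*} [Field F] [Field K] [Algebra F K] [Infinite K] {r : ℕ}
    (P : Fin (9 + r) → Fin 2 → K)
    (hP : AlgebraicIndependent F (fun ij : Fin (9 + r) × Fin 2 => P ij.1 ij.2))
    (δ : ℕ) (M : Fin 9 → ℕ) (m : Fin r → ℕ) (e : ℕ) (he : 0 < e) (hstd : Std δ M e)
    (n : ℕ) (p : Fin (r + n) → ℤ) (o : Fin (r + n) → Option Bool)
    (hc : ∀ i, 0 ≤ circO e (p i) (o i) ∧ circO e (p i) (o i) < 4 * (e : ℤ))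
    (hN : ∀ ρ < e,
      Dg δ M e ρ + 1 ≤ ∑ i, NO e (Fin.append m (fun _ : Fin n => 1) i) (p i) (o i) ρ ∨
      ∃ σ < e, Tie δ M e σ ρ ∧
        Dg δ M e ρ ≤ ∑ i, NO e (Fin.append m (fun _ : Fin n => 1) i) (p i) (o i) ρ ∧
        Dg δ M e σ + 1 ≤ ∑ i, NO e (Fin.append m (fun _ : Fin n => 1) i) (p i) (o i) σ) :
    Module.finrank K (LS δ (Fin.append M m) P) ≤ n := by
  classical
  obtain ⟨a, ν, t, ha, hν, hdist⟩ := setup (k := K) e (Fin.append m (fun _ : Fin n => 1)) p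
  obtain ⟨α, β, δ', hα, hβ, hδ', hrel⟩ := curve_rel K (N := 4 * e) (by omega)
  obtain ⟨Q, R, h⟩ := special_emptyX he δ M hstd a ha ν hν α β δ' hα hβ hδ' hrel
    (Fin.append m (fun _ : Fin n => 1)) p o hc t hdist hN
  have := finrank_le_of_special P hP δ M m n ∅ Q R (fun f hf _ => h f hf)
  simpa using this

theorem Tie.symm' {δ : ℕ} {M : Fin 9 → ℕ} {e σ ρ : ℕ} (h : Tie δ M e σ ρ) : Tie δ M e ρ σ := by
  obtain ⟨h1, h2, h3, h4, h5⟩ := h
  have hD : Dg δ M e σ = Dg δ M e ρ := by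
    have := Dg_symm δ M (e := e) (ρ := ρ) (by omega)
    rwa [show e - ρ = σ by omega] at this
  have hh : hm e σ = hm e ρ := by
    unfold hm
    omega
  refine ⟨h2, h1, h3.symm, by omega, ?_⟩
  rw [hD, hh]
  exact h5

/-- The demand `Qd` is sufficient. -/
theorem dem_of_Qd {δ : ℕ} {M : Fin 9 → ℕ} {e : ℕ} (N : ℕ → ℕ)
    (h : ∀ ρ < e, Qd δ M e ρ ≤ N ρ) : ∀ ρ < e, Dg δ M e ρ + 1 ≤ N ρ ∨
      ∃ σ < e, Tie δ M e σ ρ ∧ Dg δ M e ρ ≤ N ρ ∧ Dg δ M e σ + 1 ≤ N σ := by
  classical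
  intro ρ hρ
  have h1 := h ρ hρ
  rw [Qd] at h1
  by_cases htie : 2 * ρ < e ∧ Tie δ M e (e - ρ) ρ
  · rw [if_pos htie] at h1
    have h0 := htie.2.1
    have hρ0 := htie.2.2.1
    have h2 := h (e - ρ) (by omega)
    rw [Qd, if_neg (by omega)] at h2
    exact Or.inr ⟨e - ρ, by omega, htie.2, by omega, by omega⟩
  · rw [if_neg htie] at h1
    exact Or.inl (by omega)

/-- The reflected demand is sufficient. -/
theorem dem_of_Qd_rev {δ : ℕ} {M : Fin 9 → ℕ} {e : ℕ} (N : ℕ → ℕ)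
    (h : ∀ ρ < e, Qd δ M e ((e - ρ) % e) ≤ N ρ) : ∀ ρ < e, Dg δ M e ρ + 1 ≤ N ρ ∨
      ∃ σ < e, Tie δ M e σ ρ ∧ Dg δ M e ρ ≤ N ρ ∧ Dg δ M e σ + 1 ≤ N σ := by
  classical
  intro ρ hρ
  have h1 := h ρ hρ
  rcases Nat.eq_zero_or_pos ρ with rfl | hρ0
  · rw [Nat.sub_zero, Nat.mod_self, Qd, if_neg (by rintro ⟨-, -, h, -⟩; omega)] at h1
    exact Or.inl (by omega)
  · rw [Nat.mod_eq_of_lt (by omega)] at h1
    have hD : Dg δ M e (e - ρ) = Dg δ M e ρ := by
      exact Dg_symm δ M (e := e) (ρ := ρ) (by omega)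
    rw [Qd, hD] at h1
    by_cases htie : 2 * (e - ρ) < e ∧ Tie δ M e (e - (e - ρ)) (e - ρ)
    · rw [if_pos htie] at h1
      have h2 := h (e - ρ) (by omega)
      rw [show e - (e - ρ) = ρ by omega, Nat.mod_eq_of_lt hρ, Qd, if_neg (by omega)] at h2
      have h3 := htie.2.symm'
      rw [show e - (e - ρ) = ρ by omega] at h3
      exact Or.inr ⟨e - ρ, by omega, h3, by omega, by omega⟩
    · rw [if_neg htie] at h1
      exact Or.inl (by omega)

end ShghT
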